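import Pool.Agent.Q148.AN.As

/-! The comparison of the values at the primes with the integers. -/

set_option autoImplicit false

namespace Pool.Agent.Q148.AN

open Finset Filter
open Pool.Agent.Q148.BA (Rough PP mem_PP A gh gh_mul gh_one gh_prime gh_nn card_big pi_unif)

theorem gh_prod (h : ℕ) (T : Finset ℕ) (hT : ∀ p ∈ T, p.Prime) : gh h (∏ p ∈ T, p) = ∏ p ∈ T, gh h p := by
  classical
  induction T using Finset.induction_on with
  | empty => rw [prod_empty, prod_empty, gh_one]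
  | insert p T hpT ih =>
    rw [prod_insert hpT, prod_insert hpT, gh_mul, ih (fun x hx => hT x (mem_insert_of_mem hx))]
    apply Nat.Coprime.prod_right
    intro x hx
    apply (Nat.coprime_primes (hT p (mem_insert_self _ _)) (hT x (mem_insert_of_mem hx))).2
    rintro rfl
    exact hpT hx

theorem A_id (N q : ℕ) (hq : 1 ≤ q) : |A (Icc 1 N) (fun n => n) q - (N : ℝ) * (1 / (q : ℝ))| ≤ 1 := by
  unfold A
  have h1 : ((Icc 1 N).filter (fun n => q ∣ n)).card = N / q := by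
    have := Nat.Ioc_filter_dvd_card_eq_div N q
    rw [← this]
    congr 1
  have hq0 : (0 : ℝ) < q := by exact_mod_cast hq
  rw [h1, mul_one_div, abs_le]
  have h2 := Nat.cast_div_le (α := ℝ) (m := N) (n := q)
  have h3 : (N : ℝ) / q ≤ ((N / q : ℕ) : ℝ) + 1 := by
    rw [div_le_iff₀ hq0]
    have := Nat.lt_div_mul_add (a := N) (b := q) hq
    have h4 : N ≤ (N / q + 1) * q := by nlinarith
    exact_mod_cast h4
  constructor
  · linarith
  · linarith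

theorem A_id_sum (N Q : ℕ) : ∑ q ∈ Icc 1 Q, |A (Icc 1 N) (fun n => n) q - (N : ℝ) * (1 / (q : ℝ))| ≤ Q := by
  have h1 : ∀ q ∈ Icc 1 Q, |A (Icc 1 N) (fun n => n) q - (N : ℝ) * (1 / (q : ℝ))| ≤ 1 := by
    intro q hq
    exact A_id N q (mem_Icc.1 hq).1
  refine (sum_le_sum h1).trans ?_
  rw [sum_const, Nat.card_Icc, nsmul_eq_mul, mul_one, Nat.add_sub_cancel]

/-- the final combination -/
theorem comb (F1 F1' F2 S1 S2 X N e1 e2 e3 : ℝ) (hX : 0 ≤ X) (hN : 0 < N) (h0 : |F1 - F1'| ≤ 1)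
    (h1 : |F1' - X * S1| ≤ e1) (h2 : |S1 - S2| ≤ e2) (h3 : |F2 - N * S2| ≤ e3) :
    |F1 - X / N * F2| ≤ 1 + e1 + X * e2 + X / N * e3 := by
  have e : F1 - X / N * F2 = (F1 - F1') + (F1' - X * S1) + X * (S1 - S2) - X / N * (F2 - N * S2) := by
    field_simp
    ring
  rw [e]
  have k1 : |X * (S1 - S2)| ≤ X * e2 := by
    rw [abs_mul, abs_of_nonneg hX]
    exact mul_le_mul_of_nonneg_left h2 hX
  have k2 : |X / N * (F2 - N * S2)| ≤ X / N * e3 := by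
    rw [abs_mul, abs_of_nonneg (by positivity)]
    exact mul_le_mul_of_nonneg_left h3 (by positivity)
  have k3 := abs_sub ((F1 - F1') + (F1' - X * S1) + X * (S1 - S2)) (X / N * (F2 - N * S2))
  have k4 := abs_add_le ((F1 - F1') + (F1' - X * S1)) (X * (S1 - S2))
  have k5 := abs_add_le (F1 - F1') (F1' - X * S1)
  linarith

theorem fin_comb (X N L Q z T K κ E1 E2 B t1 t2 e1 e2 e3 C : ℝ) (hX : 0 ≤ X) (hN : 0 < N) (hT : 1 ≤ T)
    (hK0 : 0 ≤ K) (hz : 0 < z) (hB : 0 ≤ B) (hL : 0 ≤ L) (hlQ : E2 ≤ L)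
    (ht1 : t1 ≤ 2 * X * B + 2 * L * (N / L ^ 10)) (ht2 : t2 ≤ 2 * N * B + 2 * L * Q)
    (h1 : e1 ≤ T * (N / L ^ 10 + 1 * Q) + T * T * t1) (h2 : e2 ≤ T * (3 * K / z * (1 + E2)))
    (h3 : e3 ≤ T * (Q + 0 * Q) + T * T * t2)
    (hf : 1 + T * (N / L ^ 10 + Q) + T * T * (2 * L * (N / L ^ 10)) + X * (T * (3 * K / z * (1 + L))) +
      X / N * (T * Q) + X / N * (T * T * (2 * L * Q)) ≤ κ * X) (hE : E1 ≤ 1 + e1 + X * e2 + X / N * e3)
    (hC : C * κ * X = T * T * (2 * X * B) * 2 + κ * X) : E1 ≤ C * κ * X := by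
  rw [hC]
  have hTT : 0 ≤ T * T := by positivity
  have k1 : T * T * t1 ≤ T * T * (2 * X * B) + T * T * (2 * L * (N / L ^ 10)) := by
    rw [← mul_add]
    exact mul_le_mul_of_nonneg_left ht1 hTT
  have k2 : X * e2 ≤ X * (T * (3 * K / z * (1 + L))) := by
    apply mul_le_mul_of_nonneg_left _ hX
    refine h2.trans ?_
    apply mul_le_mul_of_nonneg_left _ (by linarith)
    apply mul_le_mul_of_nonneg_left (by linarith) (by positivity)
  have k3 : X / N * e3 ≤ X / N * (T * Q) + (T * T * (2 * X * B) + X / N * (T * T * (2 * L * Q))) := by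
    have h4 : T * T * t2 ≤ T * T * (2 * N * B + 2 * L * Q) := mul_le_mul_of_nonneg_left ht2 hTT
    have h5 : e3 ≤ T * Q + T * T * (2 * N * B + 2 * L * Q) := by linarith
    have h6 : X / N * e3 ≤ X / N * (T * Q + T * T * (2 * N * B + 2 * L * Q)) :=
      mul_le_mul_of_nonneg_left h5 (by positivity)
    have h7 : X / N * (T * Q + T * T * (2 * N * B + 2 * L * Q)) =
        X / N * (T * Q) + (T * T * (2 * X * B) + X / N * (T * T * (2 * L * Q))) := by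
      field_simp
    linarith
  have k4 : e1 ≤ T * (N / L ^ 10 + Q) + (T * T * (2 * X * B) + T * T * (2 * L * (N / L ^ 10))) := by
    rw [one_mul] at h1
    linarith
  linarith

theorem sq_aux {x y : ℝ} (h2 : 2 ≤ x) (h : x * x < y + 1) : x ≤ y := by nlinarith

theorem anat (δ : ℝ) (hδ : 0 < δ) (hδ1 : δ ≤ 1) : ∃ C : ℝ, 0 < C ∧ ∀ κ : ℝ, 0 < κ → κ ≤ 1 / 8 → ∀ A₀ : ℕ,
    ∃ N0 : ℕ, ∀ N : ℕ, N0 ≤ N → ∀ h : ℕ, 1 ≤ h → (h : ℝ) ≤ (N : ℝ) ^ (2 : ℝ) → ∀ v : ℕ → ℕ,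
      (∀ p ∈ PP N, (v p : ℝ) ≤ N * Real.log N ^ A₀) → ((PP N).filter (fun p => v p = 0)).card ≤ 1 →
      ∑ q ∈ Icc 1 ⌊(N : ℝ) ^ (1 - κ)⌋₊, |A (PP N) v q - ((PP N).card : ℝ) * gh h q| ≤ N / Real.log N ^ 10 →
      ∀ G : ℕ → ℝ, (∀ m, |G m| ≤ 1) →
      |∑ p ∈ PP N, G (roughPart ⌊(N : ℝ) ^ δ⌋₊ (v p)) -
        ((PP N).card : ℝ) / N * ∑ n ∈ Icc 1 N, G (roughPart ⌊(N : ℝ) ^ δ⌋₊ n)| ≤ C * κ * (PP N).card := by
  obtain ⟨C1, hC1, hup⟩ := up
  obtain ⟨C2, w1, hC2, hw1, hprod⟩ := prod_up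
  obtain ⟨c, hc⟩ : ∃ c : ℝ, c = δ / (8 * C1) := ⟨_, rfl⟩
  have hC1r : (1 : ℝ) ≤ C1 := by exact_mod_cast hC1
  have hc0 : 0 < c := by rw [hc]; positivity
  have hcC : c * C1 = δ / 8 := by rw [hc]; field_simp
  have hcδ : c ≤ δ / 8 := by
    rw [← hcC]
    exact le_mul_of_one_le_right hc0.le hC1r
  obtain ⟨L0, HJ⟩ := choose_J c hc0
  obtain ⟨K, hK⟩ : ∃ K : ℕ, K = ⌈4 / δ⌉₊ + 1 := ⟨_, rfl⟩
  have hKδ : 2 < δ / 2 * K := by
    have h1 : 4 / δ ≤ (⌈4 / δ⌉₊ : ℝ) := Nat.le_ceil _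
    rw [hK]
    push_cast
    rw [div_le_iff₀ hδ] at h1
    nlinarith
  have hK1 : (1 : ℝ) ≤ K := by
    rw [hK]
    push_cast
    have : (0 : ℝ) ≤ (⌈4 / δ⌉₊ : ℝ) := Nat.cast_nonneg _
    linarith
  obtain ⟨T, hT⟩ : ∃ T : ℝ, T = 2 ^ K := ⟨_, rfl⟩
  have hT1 : 1 ≤ T := by rw [hT]; exact one_le_pow₀ (by norm_num)
  refine ⟨T * T * (2 * C2 * (16 / c)) * 2 + 1, by positivity, ?_⟩
  intro κ hκ hκ8 A₀
  obtain ⟨D, hD⟩ : ∃ D : ℝ, D = 100 * T ^ 2 * K / κ := ⟨_, rfl⟩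
  have hD1 : 800 ≤ D := by
    rw [hD, le_div_iff₀ hκ]
    have h1 : 1 ≤ T ^ 2 := one_le_pow₀ hT1
    have : 1 ≤ T ^ 2 * K := by nlinarith
    nlinarith
  have hDK : 100 * (K : ℝ) ≤ D := by
    rw [hD, le_div_iff₀ hκ]
    have h1 : 1 ≤ T ^ 2 := one_le_pow₀ hT1
    nlinarith
  obtain ⟨Kw, hKw⟩ : ∃ Kw : ℕ, Kw = ⌈2 / κ⌉₊ + 1 := ⟨_, rfl⟩
  have hKwκ : 2 < κ * Kw := by
    have h1 : 2 / κ ≤ (⌈2 / κ⌉₊ : ℝ) := Nat.le_ceil _
    rw [hKw]
    push_cast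
    rw [div_le_iff₀ hκ] at h1
    nlinarith
  obtain ⟨N1, HN1⟩ := pi_unif (1 / 2) (by norm_num) (by norm_num)
  have e1 := Real.tendsto_log_atTop.eventually_ge_atTop (max L0 (max D (1 / c)))
  have e2 := Pool.Agent.H398R2.BV.ev_log D 3 κ hκ
  have e3 := Pool.Agent.H398R2.BV.ev_log (2 * D) 3 δ hδ
  have e4 := Pool.Agent.H398R2.BV.ev_log 1 A₀ κ hκ
  have e5 := (tendsto_rpow_atTop hκ).eventually_ge_atTop ((w1 : ℝ) + 2 * Kw + 2)
  have e6 := (tendsto_rpow_atTop (show (0 : ℝ) < δ / 2 by positivity)).eventually_ge_atTop 2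
  have e7 := (tendsto_rpow_atTop (show (0 : ℝ) < 1 / 8 by norm_num)).eventually_ge_atTop ((C1 : ℝ) + 1)
  obtain ⟨N2, HN2⟩ := eventually_atTop.1 ((tendsto_natCast_atTop_atTop (R := ℝ)).eventually
    (e1.and (e2.and (e3.and (e4.and (e5.and (e6.and (e7.and (eventually_ge_atTop 1)))))))))
  refine ⟨max N1 N2, fun N hN h hh hh2 v hv hv0 hE G hG => ?_⟩
  obtain ⟨f1, f2, f3, f4, f5, f6, f7, f8⟩ := HN2 N ((le_max_right _ _).trans hN)
  have g1 := HN1 N ((le_max_left _ _).trans hN) N le_rfl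
  obtain ⟨L, hL⟩ : ∃ L, L = Real.log N := ⟨_, rfl⟩
  rw [← hL] at f1 f2 f3 f4 g1 hE hv
  have hL0' : L0 ≤ L := (le_max_left _ _).trans f1
  have hLD : D ≤ L := (le_max_left _ _).trans ((le_max_right _ _).trans f1)
  have hLc : 1 / c ≤ L := (le_max_right _ _).trans ((le_max_right _ _).trans f1)
  have hLpos : 0 < L := by linarith
  have hNpos : (0 : ℝ) < N := by linarith
  obtain ⟨Q, hQ⟩ : ∃ Q : ℕ, Q = ⌊(N : ℝ) ^ (1 - κ)⌋₊ := ⟨_, rfl⟩
  obtain ⟨z, hz⟩ : ∃ z : ℕ, z = ⌊(N : ℝ) ^ δ⌋₊ := ⟨_, rfl⟩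
  obtain ⟨w, hw⟩ : ∃ w : ℕ, w = ⌊(N : ℝ) ^ (2 * κ)⌋₊ := ⟨_, rfl⟩
  obtain ⟨X, hX⟩ : ∃ X : ℝ, X = ((PP N).card : ℝ) := ⟨_, rfl⟩
  rw [← hQ] at hE
  rw [← hz]
  rw [← hX] at hE g1 ⊢
  have hX0 : 0 ≤ X := by rw [hX]; exact Nat.cast_nonneg _
  have hNX : (N : ℝ) ≤ 2 * L * X := by
    have := (abs_le.1 g1).1
    linarith
  -- the sizes
  have hQle : (Q : ℝ) ≤ (N : ℝ) ^ (1 - κ) := by rw [hQ]; exact Nat.floor_le (by positivity)
  have hQlt : (N : ℝ) ^ (1 - κ) < Q + 1 := by rw [hQ]; exact Nat.lt_floor_add_one _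
  have hzle : (z : ℝ) ≤ (N : ℝ) ^ δ := by rw [hz]; exact Nat.floor_le (by positivity)
  have hzlt : (N : ℝ) ^ δ < z + 1 := by rw [hz]; exact Nat.lt_floor_add_one _
  have hwle : (w : ℝ) ≤ (N : ℝ) ^ (2 * κ) := by rw [hw]; exact Nat.floor_le (by positivity)
  have hwlt : (N : ℝ) ^ (2 * κ) < w + 1 := by rw [hw]; exact Nat.lt_floor_add_one _
  have hQN : (Q : ℝ) ≤ N := by
    refine hQle.trans ?_
    calc (N : ℝ) ^ (1 - κ) ≤ (N : ℝ) ^ (1 : ℝ) := Real.rpow_le_rpow_of_exponent_le f8 (by linarith)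
      _ = N := Real.rpow_one _
  have hQN' : Q ≤ N := by exact_mod_cast hQN
  -- Q is large
  have hQ4 : (N : ℝ) ^ (1 / 4 : ℝ) ≤ Q := by
    have h1 : (N : ℝ) ^ (1 / 4 : ℝ) * 2 ≤ (N : ℝ) ^ (1 - κ) := by
      have h2 : (2 : ℝ) ≤ (N : ℝ) ^ (1 / 8 : ℝ) := by linarith
      calc (N : ℝ) ^ (1 / 4 : ℝ) * 2 ≤ (N : ℝ) ^ (1 / 4 : ℝ) * (N : ℝ) ^ (1 / 8 : ℝ) :=
            mul_le_mul_of_nonneg_left h2 (by positivity)
        _ = (N : ℝ) ^ (1 / 4 + 1 / 8 : ℝ) := (Real.rpow_add hNpos _ _).symm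
        _ ≤ _ := Real.rpow_le_rpow_of_exponent_le f8 (by linarith)
    have h2 : 1 ≤ (N : ℝ) ^ (1 / 4 : ℝ) := Real.one_le_rpow f8 (by norm_num)
    linarith
  have hQ1 : (1 : ℝ) ≤ Q := (Real.one_le_rpow f8 (by norm_num)).trans hQ4
  have hQD : D * L ^ 3 * Q ≤ N := by
    calc D * L ^ 3 * Q ≤ (N : ℝ) ^ κ * (N : ℝ) ^ (1 - κ) :=
          mul_le_mul f2 hQle (by positivity) (by positivity)
      _ = N := by
        rw [← Real.rpow_add hNpos]
        have : κ + (1 - κ) = 1 := by ring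
        rw [this, Real.rpow_one]
  -- z is large
  have hzD : D * L ^ 3 ≤ z := by
    have h1 : 1 ≤ D * L ^ 3 := one_le_mul_of_one_le_of_one_le (by linarith) (one_le_pow₀ (by linarith))
    linarith
  have hz2 : (N : ℝ) ^ (δ / 2) ≤ z := by
    have h1 : (N : ℝ) ^ δ = (N : ℝ) ^ (δ / 2) * (N : ℝ) ^ (δ / 2) := by
      rw [← Real.rpow_add hNpos]
      congr 1
      ring
    rw [h1] at hzlt
    exact sq_aux f6 hzlt
  have hzpos : (0 : ℝ) < z := by linarith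
  have hz1 : 1 ≤ z := by exact_mod_cast (by linarith : (1 : ℝ) ≤ z)
  have hN2 : (N : ℝ) ^ (2 : ℝ) < (z : ℝ) ^ K := by
    calc (N : ℝ) ^ (2 : ℝ) < (N : ℝ) ^ (δ / 2 * K) := by
          apply Real.rpow_lt_rpow_of_exponent_lt _ hKδ
          by_contra hcon
          have h1 : (N : ℝ) ^ (δ / 2) ≤ 1 ^ (δ / 2) := Real.rpow_le_rpow hNpos.le (not_lt.1 hcon) (by positivity)
          rw [Real.one_rpow] at h1
          linarith
      _ = ((N : ℝ) ^ (δ / 2)) ^ K := by rw [Real.rpow_mul hNpos.le, Real.rpow_natCast]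
      _ ≤ _ := pow_le_pow_left₀ (by positivity) hz2 K
  have hNN2 : (N : ℝ) ≤ (N : ℝ) ^ (2 : ℝ) := by
    rw [Real.rpow_two, pow_two]
    exact le_mul_of_one_le_left hNpos.le f8
  have hQzK : Q < z ^ K := by
    have : (Q : ℝ) < (z : ℝ) ^ K := by linarith
    exact_mod_cast this
  have hNzK : N < z ^ K := by
    have : (N : ℝ) < (z : ℝ) ^ K := by linarith
    exact_mod_cast this
  have hhzK : h < z ^ K := by
    have : (h : ℝ) < (z : ℝ) ^ K := by linarith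
    exact_mod_cast this
  have h2Kz : 2 * K ≤ z := by
    have h1 : D ≤ D * L ^ 3 := le_mul_of_one_le_right (by linarith) (one_le_pow₀ (by linarith))
    have : 2 * (K : ℝ) ≤ z := by linarith
    exact_mod_cast this
  -- w is large
  have hwκ : (N : ℝ) ^ κ ≤ w := by
    have h1 : (N : ℝ) ^ (2 * κ) = (N : ℝ) ^ κ * (N : ℝ) ^ κ := by
      rw [← Real.rpow_add hNpos]
      congr 1
      ring
    rw [h1] at hwlt
    have h2 : (0 : ℝ) ≤ w1 := Nat.cast_nonneg _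
    have h3 : (0 : ℝ) ≤ Kw := Nat.cast_nonneg _
    exact sq_aux (by linarith) hwlt
  have hw1w : w1 ≤ w := by
    have h3 : (0 : ℝ) ≤ Kw := Nat.cast_nonneg _
    have : (w1 : ℝ) ≤ w := by linarith
    exact_mod_cast this
  have hKww : 2 * Kw ≤ w := by
    have h3 : (0 : ℝ) ≤ w1 := Nat.cast_nonneg _
    have : 2 * (Kw : ℝ) ≤ w := by linarith
    exact_mod_cast this
  have hwpos : (0 : ℝ) < w := by
    have : (2 : ℝ) ≤ w := by exact_mod_cast hw1.trans hw1w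
    linarith
  have hN1' : 1 < (N : ℝ) := by
    by_contra hcon
    have h1 : (N : ℝ) ^ (δ / 2) ≤ 1 ^ (δ / 2) := Real.rpow_le_rpow hNpos.le (not_lt.1 hcon) (by positivity)
    rw [Real.one_rpow] at h1
    linarith
  have hN2w : (N : ℝ) ^ (2 : ℝ) < (w : ℝ) ^ Kw := by
    calc (N : ℝ) ^ (2 : ℝ) < (N : ℝ) ^ (κ * Kw) := Real.rpow_lt_rpow_of_exponent_lt hN1' hKwκ
      _ = ((N : ℝ) ^ κ) ^ Kw := by rw [Real.rpow_mul hNpos.le, Real.rpow_natCast]
      _ ≤ _ := pow_le_pow_left₀ (by positivity) hwκ Kw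
  have hhw : h < w ^ Kw := by
    have : (h : ℝ) < (w : ℝ) ^ Kw := by linarith
    exact_mod_cast this
  have h1w : 1 < w ^ Kw := by
    have : (1 : ℝ) < (w : ℝ) ^ Kw := by linarith
    exact_mod_cast this
  -- the sieving range
  obtain ⟨J, hJ1, hJ2, hJ3⟩ := HJ L hL0'
  obtain ⟨W, hW⟩ : ∃ W : ℕ, W = 2 ^ 2 ^ J := ⟨_, rfl⟩
  rw [← hW] at hJ1 hJ2
  have hWc : (W : ℝ) ≤ (N : ℝ) ^ c := by
    refine hJ1.trans (le_of_eq ?_)
    rw [Real.rpow_def_of_pos hNpos, ← hL, mul_comm]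
  have hW2 : 2 ≤ W := by
    rw [hW]
    calc 2 = 2 ^ 1 := (pow_one 2).symm
      _ ≤ 2 ^ 2 ^ J := Nat.pow_le_pow_right (by norm_num) Nat.one_le_two_pow
  have hWz : W ≤ z := by
    have h1 : (N : ℝ) ^ c ≤ (N : ℝ) ^ (δ / 2) := Real.rpow_le_rpow_of_exponent_le f8 (by linarith)
    have : (W : ℝ) ≤ z := by linarith
    exact_mod_cast this
  have hWQ : C1 * (2 ^ 2 ^ J) ^ C1 ≤ Q := by
    rw [← hW]
    have h1 : (W : ℝ) ^ C1 ≤ (N : ℝ) ^ (1 / 8 : ℝ) := by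
      calc (W : ℝ) ^ C1 ≤ ((N : ℝ) ^ c) ^ C1 := pow_le_pow_left₀ (Nat.cast_nonneg _) hWc C1
        _ = (N : ℝ) ^ (c * C1) := by rw [Real.rpow_mul hNpos.le, Real.rpow_natCast]
        _ ≤ _ := Real.rpow_le_rpow_of_exponent_le f8 (by rw [hcC]; linarith)
    have h2 : (C1 : ℝ) * (W : ℝ) ^ C1 ≤ Q := by
      calc (C1 : ℝ) * (W : ℝ) ^ C1 ≤ (N : ℝ) ^ (1 / 8 : ℝ) * (N : ℝ) ^ (1 / 8 : ℝ) :=
            mul_le_mul (by linarith) h1 (by positivity) (by positivity)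
        _ = (N : ℝ) ^ (1 / 8 + 1 / 8 : ℝ) := (Real.rpow_add hNpos _ _).symm
        _ = (N : ℝ) ^ (1 / 4 : ℝ) := by norm_num
        _ ≤ _ := hQ4
    exact_mod_cast h2
  have hlogW : 0 < Real.log W := Real.log_pos (by exact_mod_cast (by omega : 1 < W))
  have hratio : Real.log w / Real.log W ≤ 16 / c * κ := by
    have h1 : Real.log w ≤ 2 * κ * L := by
      rw [hL, ← Real.log_rpow hNpos]
      exact Real.log_le_log hwpos hwle
    rw [div_le_iff₀ hlogW]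
    calc Real.log w ≤ 2 * κ * L := h1
      _ = 16 / c * κ * (c * L / 8) := by field_simp; ring
      _ ≤ _ := mul_le_mul_of_nonneg_left hJ2 (by positivity)
  have hJL : (J : ℝ) + 1 ≤ 2 * L := by
    have h1 : 1 ≤ L := by linarith
    have h2 : c * L ≤ L := mul_le_of_le_one_left hLpos.le (by linarith)
    linarith
  have hPI : ∀ p ∈ PI w W, p.Prime ∧ p ≤ 2 ^ 2 ^ J := by
    intro p hp
    rw [mem_PI] at hp
    rw [← hW]
    exact hp.1
  -- the tail for the primes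
  have t1 : (((PP N).filter (fun p => v p ≠ 0 ∧ Q < roughPart z (v p))).card : ℝ) ≤
      2 * X * (C2 * (16 / c * κ)) + 2 * L * (N / L ^ 10) := by
    have h1 := tail1 (PP N) v Q z ⌊(N : ℝ) * L ^ A₀⌋₊ w W (fun p hp => Nat.le_floor (hv p hp)) (by
      have h2 : ((⌊(N : ℝ) * L ^ A₀⌋₊ : ℕ) : ℝ) < (w + 1) * (Q + 1) := by
        calc ((⌊(N : ℝ) * L ^ A₀⌋₊ : ℕ) : ℝ) ≤ N * L ^ A₀ := Nat.floor_le (by positivity)
          _ ≤ N * (N : ℝ) ^ κ := mul_le_mul_of_nonneg_left (by linarith) hNpos.le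
          _ = (N : ℝ) ^ (2 * κ) * (N : ℝ) ^ (1 - κ) := by
            rw [← Real.rpow_add hNpos]
            conv_lhs => rw [← Real.rpow_one (N : ℝ), ← Real.rpow_mul hNpos.le, one_mul, ← Real.rpow_add hNpos]
            congr 1
            ring
          _ < _ := mul_lt_mul'' hwlt hQlt (by positivity) (by positivity)
      exact_mod_cast h2) hWz
    have h2 := hup J (PI w W) hPI (PP N) v X (gh h) Q (N / L ^ 10) hX0
      (fun T hT => gh_prod h T (fun p hp => (mem_PI.1 (hT hp)).1.1)) (fun p hp => ⟨gh_nn h p,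
        Pool.Agent.Q148.BA.gh_p1 h p (mem_PI.1 hp).1.1⟩) hWQ hE
    have h3 := hprod w W h Kw (gh h) hw1w hKww hh hhw (by
      intro p hp
      have hp' := (mem_PI.1 hp).1.1
      have hp2 : (2 : ℝ) ≤ p := by exact_mod_cast hp'.two_le
      rw [gh_prime hp']
      constructor
      · split_ifs
        · norm_num
        · rw [div_le_one (by linarith)]
          linarith
      · intro hd
        rw [if_neg hd]
        exact one_div_le_one_div_of_le (by linarith) (by linarith)) (fun p _ => gh_nn h p) hW2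
    have h4 : ∏ p ∈ PI w W, (1 - gh h p) ≤ C2 * (16 / c * κ) :=
      h3.trans (mul_le_mul_of_nonneg_left hratio hC2.le)
    have h5 : 2 * X * ∏ p ∈ PI w W, (1 - gh h p) ≤ 2 * X * (C2 * (16 / c * κ)) :=
      mul_le_mul_of_nonneg_left h4 (by positivity)
    have h6 : ((J : ℝ) + 1) * (N / L ^ 10) ≤ 2 * L * (N / L ^ 10) := mul_le_mul_of_nonneg_right hJL (by positivity)
    have h7 : (((PP N).filter (fun p => v p ≠ 0 ∧ Q < roughPart z (v p))).card : ℝ) ≤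
      (((PP N).filter (fun n => ∀ p ∈ PI w W, ¬ p ∣ v n)).card : ℝ) := by
      convert (Nat.cast_le (α := ℝ)).2 h1
    have h8 : (((PP N).filter (fun n => ∀ p ∈ PI w W, ¬ p ∣ v n)).card : ℝ) ≤
        2 * X * ∏ p ∈ PI w W, (1 - gh h p) + (J + 1) * (N / L ^ 10) := by convert h2
    linarith
  -- the tail for the integers
  have t2 : (((Icc 1 N).filter (fun n => n ≠ 0 ∧ Q < roughPart z n)).card : ℝ) ≤
      2 * N * (C2 * (16 / c * κ)) + 2 * L * Q := by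
    have h1 := tail1 (Icc 1 N) (fun n => n) Q z N w W (fun n hn => (mem_Icc.1 hn).2) (by
      have h2 : (N : ℝ) < (w + 1) * (Q + 1) := by
        calc (N : ℝ) ≤ N * (N : ℝ) ^ κ := le_mul_of_one_le_right hNpos.le (Real.one_le_rpow f8 hκ.le)
          _ = (N : ℝ) ^ (2 * κ) * (N : ℝ) ^ (1 - κ) := by
            rw [← Real.rpow_add hNpos]
            conv_lhs => rw [← Real.rpow_one (N : ℝ), ← Real.rpow_mul hNpos.le, one_mul, ← Real.rpow_add hNpos]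
            congr 1
            ring
          _ < _ := mul_lt_mul'' hwlt hQlt (by positivity) (by positivity)
      exact_mod_cast h2) hWz
    have h2 := hup J (PI w W) hPI (Icc 1 N) (fun n => n) N (fun q => 1 / (q : ℝ)) Q Q hNpos.le
      (fun T _ => by push_cast; rw [one_div, ← prod_inv_distrib]; exact prod_congr rfl (fun p _ => (one_div _).symm))
      (fun p hp => by
        have hp2 : (2 : ℝ) ≤ p := by exact_mod_cast (mem_PI.1 hp).1.1.two_le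
        exact ⟨by positivity, one_div_le_one_div_of_le (by linarith) (by linarith)⟩) hWQ (A_id_sum N Q)
    have h3 := hprod w W 1 Kw (fun q => 1 / (q : ℝ)) hw1w hKww le_rfl h1w (by
      intro p hp
      have hp2 : (2 : ℝ) ≤ p := by exact_mod_cast (mem_PI.1 hp).1.1.two_le
      refine ⟨?_, fun _ => le_rfl⟩
      rw [div_le_one (by linarith)]
      linarith) (fun p _ => by positivity) hW2
    have h4 : ∏ p ∈ PI w W, (1 - 1 / (p : ℝ)) ≤ C2 * (16 / c * κ) :=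
      h3.trans (mul_le_mul_of_nonneg_left hratio hC2.le)
    have h5 : 2 * (N : ℝ) * ∏ p ∈ PI w W, (1 - 1 / (p : ℝ)) ≤ 2 * N * (C2 * (16 / c * κ)) :=
      mul_le_mul_of_nonneg_left h4 (by positivity)
    have h6 : ((J : ℝ) + 1) * Q ≤ 2 * L * Q := mul_le_mul_of_nonneg_right hJL (by positivity)
    have h7 : (((Icc 1 N).filter (fun n => n ≠ 0 ∧ Q < roughPart z n)).card : ℝ) ≤
      (((Icc 1 N).filter (fun n => ∀ p ∈ PI w W, ¬ p ∣ n)).card : ℝ) := by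
      convert (Nat.cast_le (α := ℝ)).2 h1
    have h8 : (((Icc 1 N).filter (fun n => ∀ p ∈ PI w W, ¬ p ∣ n)).card : ℝ) ≤
        2 * N * ∏ p ∈ PI w W, (1 - 1 / (p : ℝ)) + (J + 1) * Q := by convert h2
    linarith
  -- the comparison
  classical
  have hMz : ⌊(N : ℝ) * L ^ A₀⌋₊ < z ^ K := by
    have h2 : ((⌊(N : ℝ) * L ^ A₀⌋₊ : ℕ) : ℝ) < (z : ℝ) ^ K := by
      calc ((⌊(N : ℝ) * L ^ A₀⌋₊ : ℕ) : ℝ) ≤ N * L ^ A₀ := Nat.floor_le (by positivity)
        _ ≤ N * N := by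
          apply mul_le_mul_of_nonneg_left _ hNpos.le
          have h3 : (N : ℝ) ^ κ ≤ (N : ℝ) ^ (1 : ℝ) := Real.rpow_le_rpow_of_exponent_le f8 (by linarith)
          rw [Real.rpow_one] at h3
          linarith
        _ = (N : ℝ) ^ (2 : ℝ) := by rw [Real.rpow_two, pow_two]
        _ < _ := hN2
    exact_mod_cast h2
  have m1 := main1 (PP N) v X (gh h) Q z K ⌊(N : ℝ) * L ^ A₀⌋₊ 1 (N / L ^ 10) hz1
    (fun p hp => Nat.le_floor (hv p hp)) hMz hQzK hv0 hE G hG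
  have m2 := main1 (Icc 1 N) (fun n => n) N (fun q => 1 / (q : ℝ)) Q z K N 0 Q hz1
    (fun n hn => (mem_Icc.1 hn).2) hNzK hQzK (by
      rw [Nat.le_zero, card_eq_zero, filter_eq_empty_iff]
      intro n hn
      rw [mem_Icc] at hn
      omega) (A_id_sum N Q) G hG
  have m3 := dens_cmp z Q K h hz1 h2Kz hQzK hh hhzK G hG
  have hF2 : (Icc 1 N).filter (fun n => n ≠ 0) = Icc 1 N := by
    rw [filter_eq_self]
    intro n hn
    rw [mem_Icc] at hn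
    omega
  rw [hF2] at m2
  have hF1 : |∑ p ∈ PP N, G (roughPart z (v p)) - ∑ p ∈ (PP N).filter (fun p => v p ≠ 0), G (roughPart z (v p))| ≤ 1 := by
    have h1 := sum_filter_add_sum_filter_not (PP N) (fun p => v p ≠ 0) (fun p => G (roughPart z (v p)))
    rw [← h1, add_sub_cancel_left]
    refine (abs_sum_le_sum_abs _ _).trans ((sum_le_sum (fun _ _ => hG _)).trans ?_)
    rw [sum_const, nsmul_eq_mul, mul_one]
    have h2 : (PP N).filter (fun p => ¬ v p ≠ 0) = (PP N).filter (fun p => v p = 0) := by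
      apply filter_congr
      intro p _
      rw [not_not]
    rw [h2]
    exact_mod_cast hv0
  have m4 := comb _ _ _ _ _ X N _ _ _ hX0 hNpos hF1 m1 m3 m2
  have hlQ : Real.log Q ≤ L := by
    rw [hL]
    exact Real.log_le_log (by linarith) hQN
  have hfin := fin_ineq X N L Q z T K κ D hT1 hK1 hκ hκ8 hD hLD hQD hQ1 hzD hNX
  rw [← hT] at m4
  refine fin_comb X N L Q z T K κ _ (Real.log Q) (C2 * (16 / c * κ)) _ _ _ _ _ _ hX0 hNpos hT1 (by linarith)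
    hzpos (by positivity) hLpos.le hlQ t1 t2 ?_ le_rfl ?_ hfin m4 (by ring)
  · push_cast
    exact le_rfl
  · push_cast
    exact le_rfl

end Pool.Agent.Q148.AN
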