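import Pool.Agent.Q148.AN.Cm

/-! The assembly. -/

set_option autoImplicit false

namespace Pool.Agent.Q148.AN

open Finset Filter
open Pool.Agent.Q148.BA (Rough PP mem_PP A gh card_big pi_unif)

theorem fin_ineq (X N L Q z T K κ D : ℝ) (hT : 1 ≤ T) (hK : 1 ≤ K) (hκ : 0 < κ) (hκ1 : κ ≤ 1 / 8)
    (hD : D = 100 * T ^ 2 * K / κ) (hLD : D ≤ L) (hQ : D * L ^ 3 * Q ≤ N) (hQ1 : 1 ≤ Q) (hz : D * L ^ 3 ≤ z)
    (hNX : N ≤ 2 * L * X) :
    1 + T * (N / L ^ 10 + Q) + T * T * (2 * L * (N / L ^ 10)) + X * (T * (3 * K / z * (1 + L))) +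
      X / N * (T * Q) + X / N * (T * T * (2 * L * Q)) ≤ κ * X := by
  have hT2 : 1 ≤ T ^ 2 := one_le_pow₀ hT
  have hTT : T ≤ T ^ 2 := by nlinarith
  have hD1 : 800 ≤ D := by
    rw [hD, le_div_iff₀ hκ]
    have : 1 ≤ T ^ 2 * K := by nlinarith
    nlinarith
  have hD0 : 0 < D := by linarith
  have hL : 800 ≤ L := by linarith
  have hL0 : 0 < L := by linarith
  have hDL : 0 < D * L ^ 3 := by positivity
  have hN0 : 0 < N := by
    have : D * L ^ 3 * 1 ≤ D * L ^ 3 * Q := mul_le_mul_of_nonneg_left hQ1 hDL.le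
    linarith
  have hX0 : 0 < X := by
    by_contra hcon
    have : 2 * L * X ≤ 0 := mul_nonpos_of_nonneg_of_nonpos (by positivity) (not_lt.1 hcon)
    linarith
  -- the main quantity
  have hm : 100 * T ^ 2 * K * (X / D) = κ * X := by
    rw [hD]
    field_simp
  obtain ⟨m, hmd⟩ : ∃ m, m = X / D := ⟨_, rfl⟩
  have hm0 : 0 < m := by rw [hmd]; positivity
  have hXm : X = m * D := by rw [hmd]; field_simp
  rw [← hmd] at hm
  have hmT : T ^ 2 * m ≤ T ^ 2 * K * m := by
    have : T ^ 2 * 1 ≤ T ^ 2 * K := mul_le_mul_of_nonneg_left hK (by positivity)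
    nlinarith
  have hm1 : m ≤ T ^ 2 * m := le_mul_of_one_le_left hm0.le hT2
  -- 1
  have s1 : 1 ≤ m := by
    have h1 : D * L ^ 3 ≤ 2 * L * X := by
      have : D * L ^ 3 * 1 ≤ D * L ^ 3 * Q := mul_le_mul_of_nonneg_left hQ1 hDL.le
      linarith
    rw [hXm] at h1
    have h2 : D * L * (L ^ 2) ≤ D * L * (2 * m) := by
      calc D * L * (L ^ 2) = D * L ^ 3 := by ring
        _ ≤ 2 * L * (m * D) := h1
        _ = _ := by ring
    have h3 := le_of_mul_le_mul_left h2 (by positivity)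
    nlinarith
  have hLp : ∀ k : ℕ, 1 ≤ k → L ≤ L ^ k := fun k hk => le_self_pow₀ (by linarith) (by omega)
  -- N / L ^ 10
  have s2 : L * (N / L ^ 10) ≤ 2 * m := by
    have h1 : L * (N / L ^ 10) = N / L ^ 9 := by
      field_simp
    rw [h1, div_le_iff₀ (by positivity)]
    have h2 : D * L ≤ L ^ 9 := by
      calc D * L ≤ L * L := mul_le_mul_of_nonneg_right hLD hL0.le
        _ = L ^ 2 := by ring
        _ ≤ L ^ 9 := pow_le_pow_right₀ (by linarith) (by norm_num)
    calc N ≤ 2 * L * X := hNX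
      _ = 2 * m * (D * L) := by rw [hXm]; ring
      _ ≤ 2 * m * L ^ 9 := mul_le_mul_of_nonneg_left h2 (by positivity)
  have s2' : N / L ^ 10 ≤ 2 * m := by
    have h1 : 0 ≤ N / L ^ 10 := by positivity
    have h2 : N / L ^ 10 ≤ L * (N / L ^ 10) := le_mul_of_one_le_left h1 (by linarith)
    linarith
  -- Q
  have s3 : Q ≤ 2 * m := by
    have h1 : D * L ^ 3 * Q ≤ 2 * L * X := hQ.trans hNX
    rw [hXm] at h1
    have h2 : D * L * (L ^ 2 * Q) ≤ D * L * (2 * m) := by
      calc D * L * (L ^ 2 * Q) = D * L ^ 3 * Q := by ring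
        _ ≤ 2 * L * (m * D) := h1
        _ = _ := by ring
    have h3 := le_of_mul_le_mul_left h2 (by positivity)
    have h4 : Q ≤ L ^ 2 * Q := le_mul_of_one_le_left (by linarith) (one_le_pow₀ (by linarith))
    linarith
  have s4 : X * (T * (3 * K / z * (1 + L))) ≤ 6 * (T ^ 2 * K * m) := by
    have hz0 : 0 < z := by linarith
    have h1 : 3 * K / z * (1 + L) ≤ 6 * K / D := by
      rw [div_mul_eq_mul_div, div_le_div_iff₀ hz0 hD0]
      have h2 : (1 + L) * D ≤ 2 * z := by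
        have h3 : (1 + L) * D ≤ 2 * (D * L ^ 3) := by
          have h4 : 1 + L ≤ 2 * L ^ 3 := by
            have := hLp 3 (by norm_num)
            linarith
          calc (1 + L) * D ≤ 2 * L ^ 3 * D := mul_le_mul_of_nonneg_right h4 hD0.le
            _ = _ := by ring
        linarith
      calc 3 * K * (1 + L) * D = 3 * K * ((1 + L) * D) := by ring
        _ ≤ 3 * K * (2 * z) := mul_le_mul_of_nonneg_left h2 (by positivity)
        _ = _ := by ring
    calc X * (T * (3 * K / z * (1 + L))) ≤ X * (T * (6 * K / D)) := by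
          apply mul_le_mul_of_nonneg_left _ hX0.le
          exact mul_le_mul_of_nonneg_left h1 (by linarith)
      _ = 6 * (T * K * m) := by rw [hmd]; ring
      _ ≤ _ := by
          have : T * (K * m) ≤ T ^ 2 * (K * m) := mul_le_mul_of_nonneg_right hTT (by positivity)
          nlinarith
  have s5 : X / N * Q ≤ m / L := by
    rw [div_mul_eq_mul_div, div_le_div_iff₀ hN0 hL0]
    calc X * Q * L = m * (D * L * Q) := by rw [hXm]; ring
      _ ≤ m * (D * L ^ 3 * Q) := by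
          apply mul_le_mul_of_nonneg_left _ hm0.le
          apply mul_le_mul_of_nonneg_right _ (by linarith)
          exact mul_le_mul_of_nonneg_left (hLp 3 (by norm_num)) hD0.le
      _ ≤ m * N := mul_le_mul_of_nonneg_left hQ hm0.le
  have s6 : X / N * (T * T * (2 * L * Q)) ≤ 2 * (T ^ 2 * m) := by
    calc X / N * (T * T * (2 * L * Q)) = 2 * T ^ 2 * L * (X / N * Q) := by ring
      _ ≤ 2 * T ^ 2 * L * (m / L) := mul_le_mul_of_nonneg_left s5 (by positivity)
      _ = _ := by field_simp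
  have s7 : X / N * (T * Q) ≤ T ^ 2 * m := by
    have h1 : m / L ≤ m := div_le_self hm0.le (by linarith)
    calc X / N * (T * Q) = T * (X / N * Q) := by ring
      _ ≤ T * m := mul_le_mul_of_nonneg_left (s5.trans h1) (by linarith)
      _ ≤ _ := mul_le_mul_of_nonneg_right hTT hm0.le
  have s8 : T * (N / L ^ 10 + Q) ≤ 4 * (T ^ 2 * m) := by
    calc T * (N / L ^ 10 + Q) ≤ T * (4 * m) := mul_le_mul_of_nonneg_left (by linarith) (by linarith)
      _ = 4 * (T * m) := by ring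
      _ ≤ _ := by
          have := mul_le_mul_of_nonneg_right hTT hm0.le
          linarith
  have s9 : T * T * (2 * L * (N / L ^ 10)) ≤ 4 * (T ^ 2 * m) := by
    calc T * T * (2 * L * (N / L ^ 10)) = 2 * T ^ 2 * (L * (N / L ^ 10)) := by ring
      _ ≤ 2 * T ^ 2 * (2 * m) := mul_le_mul_of_nonneg_left s2 (by positivity)
      _ = _ := by ring
  rw [← hm]
  have hmp : 0 < T ^ 2 * K * m := by positivity
  have : 100 * T ^ 2 * K * m = 100 * (T ^ 2 * K * m) := by ring
  rw [this]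
  linarith

/-- the choice of the sieving range -/
theorem choose_J (c : ℝ) (hc : 0 < c) : ∃ L0 : ℝ, ∀ L : ℝ, L0 ≤ L →
    ∃ J : ℕ, ((2 ^ 2 ^ J : ℕ) : ℝ) ≤ Real.exp (c * L) ∧ c * L / 8 ≤ Real.log ((2 ^ 2 ^ J : ℕ) : ℝ) ∧
      (J : ℝ) + 1 ≤ c * L + 1 := by
  refine ⟨4 / c, fun L hL => ?_⟩
  have hcL : 4 ≤ c * L := by
    rw [div_le_iff₀ hc] at hL
    linarith
  obtain ⟨n, hn⟩ : ∃ n : ℕ, n = ⌊c * L⌋₊ := ⟨_, rfl⟩
  have hn1 : (n : ℝ) ≤ c * L := by rw [hn]; exact Nat.floor_le (by linarith)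
  have hn2 : c * L < n + 1 := by rw [hn]; exact Nat.lt_floor_add_one _
  have hn4 : 3 ≤ n := by
    have : (3 : ℝ) < n := by linarith
    exact_mod_cast this.le
  have h1 := Nat.pow_log_le_self 2 (show n ≠ 0 by omega)
  have h2 := Nat.lt_pow_succ_log_self (show 1 < 2 by norm_num) n
  refine ⟨Nat.log 2 n, ?_, ?_, ?_⟩
  · have h3 : ((2 ^ 2 ^ Nat.log 2 n : ℕ) : ℝ) ≤ (2 : ℝ) ^ n := by
      exact_mod_cast Nat.pow_le_pow_right (by norm_num) h1
    refine h3.trans ?_
    have h4 : (2 : ℝ) ≤ Real.exp 1 := by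
      have := Real.add_one_le_exp (1 : ℝ)
      linarith
    calc (2 : ℝ) ^ n ≤ (Real.exp 1) ^ n := pow_le_pow_left₀ (by norm_num) h4 n
      _ = Real.exp n := by rw [← Real.exp_nat_mul, mul_one]
      _ ≤ _ := Real.exp_le_exp.2 hn1
  · push_cast
    rw [Real.log_pow]
    push_cast
    have h3 : (n : ℝ) < 2 * 2 ^ Nat.log 2 n := by
      have : n < 2 * 2 ^ Nat.log 2 n := by
        rw [← pow_succ']
        exact h2
      exact_mod_cast this
    have h4 := Real.log_two_gt_d9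
    have h5 : (0 : ℝ) < 2 ^ Nat.log 2 n := by positivity
    nlinarith
  · have h3 : Nat.log 2 n ≤ n := Nat.log_le_self 2 n
    have : ((Nat.log 2 n : ℕ) : ℝ) ≤ n := by exact_mod_cast h3
    linarith

end Pool.Agent.Q148.AN
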