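import Pool.Agent.Q148.AN.Up

/-! The mean values of functions of the part composed of large primes. -/

set_option autoImplicit false

namespace Pool.Agent.Q148.AN

open Finset
open Pool.Agent.Q148.BA (Rough PP mem_PP A gh card_big)

open Classical in
theorem main1 (S : Finset ℕ) (v : ℕ → ℕ) (X : ℝ) (g : ℕ → ℝ) (Q z K M Z : ℕ) (E : ℝ) (hz : 1 ≤ z)
    (hM : ∀ n ∈ S, v n ≤ M) (hMz : M < z ^ K) (hQz : Q < z ^ K) (hZ : (S.filter (fun n => v n = 0)).card ≤ Z)
    (hE : ∑ q ∈ Icc 1 Q, |A S v q - X * g q| ≤ E) (G : ℕ → ℝ) (hG : ∀ m, |G m| ≤ 1) :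
    |∑ n ∈ S.filter (fun n => v n ≠ 0), G (roughPart z (v n)) -
      X * ∑ q ∈ (Icc 1 Q).filter (Rough z), gG G q * g q| ≤
      2 ^ K * (E + Z * Q) +
        2 ^ K * 2 ^ K * ((S.filter (fun n => v n ≠ 0 ∧ Q < roughPart z (v n))).card : ℝ) := by
  have hT : ∀ q, 1 ≤ q → Rough z q → q < z ^ K → |gG G q| ≤ 2 ^ K := by
    intro q hq hr hqz
    refine (gG_le G hG q).trans ?_
    exact_mod_cast card_div_rough z q q K hz hq le_rfl hr hqz
  have h1 : ∑ n ∈ S.filter (fun n => v n ≠ 0), G (roughPart z (v n)) =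
      ∑ n ∈ S.filter (fun n => v n ≠ 0), ∑ q ∈ (roughPart z (v n)).divisors.filter (fun q => q ≤ Q), gG G q +
      ∑ n ∈ S.filter (fun n => v n ≠ 0), ∑ q ∈ (roughPart z (v n)).divisors.filter (fun q => ¬ q ≤ Q), gG G q := by
    rw [← sum_add_distrib]
    apply sum_congr rfl
    intro n hn
    rw [mem_filter] at hn
    rw [sum_filter_add_sum_filter_not]
    exact (gG_sum G _ (Nat.pos_of_ne_zero (rough_pos z _ hn.2))).symm
  have h2 : ∑ n ∈ S.filter (fun n => v n ≠ 0), ∑ q ∈ (roughPart z (v n)).divisors.filter (fun q => q ≤ Q), gG G q =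
      ∑ q ∈ (Icc 1 Q).filter (Rough z), gG G q * ((S.filter (fun n => v n ≠ 0 ∧ q ∣ v n)).card : ℝ) := by
    have e1 : ∀ n ∈ S.filter (fun n => v n ≠ 0),
        ∑ q ∈ (roughPart z (v n)).divisors.filter (fun q => q ≤ Q), gG G q =
        ∑ q ∈ (Icc 1 Q).filter (Rough z), if q ∣ v n then gG G q else 0 := by
      intro n hn
      rw [mem_filter] at hn
      rw [← sum_filter]
      apply sum_congr _ (fun _ _ => rfl)
      ext q
      rw [mem_filter, Nat.mem_divisors, mem_filter, mem_filter, mem_Icc, dvd_rough z _ q hn.2]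
      constructor
      · rintro ⟨⟨⟨h3, h4⟩, h5⟩, h6⟩
        refine ⟨⟨⟨?_, h6⟩, h4⟩, h3⟩
        rcases Nat.eq_zero_or_pos q with h7 | h7
        · rw [h7, zero_dvd_iff] at h3
          exact absurd h3 hn.2
        · exact h7
      · rintro ⟨⟨⟨h3, h4⟩, h5⟩, h6⟩
        exact ⟨⟨⟨h6, h5⟩, rough_pos z _ hn.2⟩, h4⟩
    rw [sum_congr rfl e1, sum_comm]
    apply sum_congr rfl
    intro q _
    rw [← sum_filter, sum_const, nsmul_eq_mul, mul_comm, filter_filter]
  have h3 : |∑ q ∈ (Icc 1 Q).filter (Rough z), gG G q * ((S.filter (fun n => v n ≠ 0 ∧ q ∣ v n)).card : ℝ) -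
      X * ∑ q ∈ (Icc 1 Q).filter (Rough z), gG G q * g q| ≤ 2 ^ K * (E + Z * Q) := by
    have e1 : ∑ q ∈ (Icc 1 Q).filter (Rough z), gG G q * ((S.filter (fun n => v n ≠ 0 ∧ q ∣ v n)).card : ℝ) -
        X * ∑ q ∈ (Icc 1 Q).filter (Rough z), gG G q * g q =
        ∑ q ∈ (Icc 1 Q).filter (Rough z), gG G q *
          (((S.filter (fun n => v n ≠ 0 ∧ q ∣ v n)).card : ℝ) - X * g q) := by
      rw [mul_sum, ← sum_sub_distrib]
      apply sum_congr rfl
      intro q _
      ring
    rw [e1]
    refine (abs_sum_le_sum_abs _ _).trans ?_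
    have e2 : ∀ q ∈ (Icc 1 Q).filter (Rough z), |gG G q *
          (((S.filter (fun n => v n ≠ 0 ∧ q ∣ v n)).card : ℝ) - X * g q)| ≤
          2 ^ K * (|A S v q - X * g q| + Z) := by
      intro q hq
      rw [mem_filter, mem_Icc] at hq
      rw [abs_mul]
      apply mul_le_mul (hT q hq.1.1 hq.2 (by omega)) _ (abs_nonneg _) (by positivity)
      have e3 : A S v q = ((S.filter (fun n => v n ≠ 0 ∧ q ∣ v n)).card : ℝ) +
          ((S.filter (fun n => v n = 0)).card : ℝ) := by
        unfold A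
        have : S.filter (fun n => q ∣ v n) = S.filter (fun n => v n ≠ 0 ∧ q ∣ v n) ∪ S.filter (fun n => v n = 0) := by
          ext n
          rw [mem_union, mem_filter, mem_filter, mem_filter]
          constructor
          · rintro ⟨h4, h5⟩
            by_cases h6 : v n = 0
            · exact Or.inr ⟨h4, h6⟩
            · exact Or.inl ⟨h4, h6, h5⟩
          · rintro (⟨h4, h5, h6⟩ | ⟨h4, h5⟩)
            · exact ⟨h4, h6⟩
            · refine ⟨h4, ?_⟩
              rw [h5]
              exact dvd_zero q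
        rw [this, card_union_of_disjoint]
        · push_cast
          ring
        · rw [disjoint_filter]
          rintro n _ ⟨h4, _⟩ h5
          exact h4 h5
      have e4 : ((S.filter (fun n => v n ≠ 0 ∧ q ∣ v n)).card : ℝ) - X * g q =
          (A S v q - X * g q) - ((S.filter (fun n => v n = 0)).card : ℝ) := by
        rw [e3]
        ring
      rw [e4]
      have e5 : ((S.filter (fun n => v n = 0)).card : ℝ) ≤ Z := by exact_mod_cast hZ
      have e6 : (0 : ℝ) ≤ ((S.filter (fun n => v n = 0)).card : ℝ) := Nat.cast_nonneg _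
      have e7 := abs_sub (A S v q - X * g q) ((S.filter (fun n => v n = 0)).card : ℝ)
      rw [abs_of_nonneg e6] at e7
      linarith
    refine (sum_le_sum e2).trans ?_
    rw [← mul_sum]
    apply mul_le_mul_of_nonneg_left _ (by positivity)
    calc ∑ q ∈ (Icc 1 Q).filter (Rough z), (|A S v q - X * g q| + (Z : ℝ)) ≤
        ∑ q ∈ Icc 1 Q, (|A S v q - X * g q| + (Z : ℝ)) := by
          apply sum_le_sum_of_subset_of_nonneg (filter_subset _ _)
          intro _ _ _
          positivity
      _ = ∑ q ∈ Icc 1 Q, |A S v q - X * g q| + Z * Q := by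
          rw [sum_add_distrib, sum_const, Nat.card_Icc, nsmul_eq_mul, Nat.add_sub_cancel]
          ring
      _ ≤ _ := by linarith
  have h4 : |∑ n ∈ S.filter (fun n => v n ≠ 0), ∑ q ∈ (roughPart z (v n)).divisors.filter (fun q => ¬ q ≤ Q), gG G q| ≤
      2 ^ K * 2 ^ K * ((S.filter (fun n => v n ≠ 0 ∧ Q < roughPart z (v n))).card : ℝ) := by
    refine (abs_sum_le_sum_abs _ _).trans ?_
    have e1 : ∀ n ∈ S.filter (fun n => v n ≠ 0),
        |∑ q ∈ (roughPart z (v n)).divisors.filter (fun q => ¬ q ≤ Q), gG G q| ≤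
        if Q < roughPart z (v n) then 2 ^ K * 2 ^ K else 0 := by
      intro n hn
      rw [mem_filter] at hn
      have hRM : roughPart z (v n) ≤ M := (Nat.le_of_dvd (Nat.pos_of_ne_zero hn.2) (rough_dvd z _ hn.2)).trans (hM n hn.1)
      have hR1 : 1 ≤ roughPart z (v n) := Nat.pos_of_ne_zero (rough_pos z _ hn.2)
      split_ifs with h5
      · refine (abs_sum_le_sum_abs _ _).trans ?_
        have e2 : ∀ q ∈ (roughPart z (v n)).divisors.filter (fun q => ¬ q ≤ Q), |gG G q| ≤ 2 ^ K := by
          intro q hq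
          rw [mem_filter, Nat.mem_divisors] at hq
          have hq1 : 1 ≤ q := by omega
          apply hT q hq1 (fun p hp hpz hd => rough_rough z (v n) p hp hpz (hd.trans hq.1.1))
          exact (Nat.le_of_dvd (by omega) hq.1.1).trans_lt (by omega)
        refine (sum_le_sum e2).trans ?_
        rw [sum_const, nsmul_eq_mul]
        apply mul_le_mul_of_nonneg_right _ (by positivity)
        have e3 : ((roughPart z (v n)).divisors.filter (fun q => ¬ q ≤ Q)).card ≤ 2 ^ K :=
          (card_le_card (filter_subset _ _)).trans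
            (card_div_rough z _ M K hz hR1 hRM (rough_rough z _) hMz)
        exact_mod_cast e3
      · have e2 : (roughPart z (v n)).divisors.filter (fun q => ¬ q ≤ Q) = ∅ := by
          rw [filter_eq_empty_iff]
          intro q hq
          rw [Nat.mem_divisors] at hq
          have := Nat.le_of_dvd (by omega) hq.1
          omega
        rw [e2, sum_empty, abs_zero]
    refine (sum_le_sum e1).trans ?_
    rw [← sum_filter, sum_const, nsmul_eq_mul, mul_comm, filter_filter]
  rw [h1, h2]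
  have h5 : ∀ a b c : ℝ, |a + b - c| ≤ |a - c| + |b| := by
    intro a b c
    have : a + b - c = (a - c) + b := by ring
    rw [this]
    exact abs_add_le _ _
  exact (h5 _ _ _).trans (add_le_add h3 h4)

open Classical in
/-- few members of the sequence have a large part composed of large primes -/
theorem tail1 (S : Finset ℕ) (v : ℕ → ℕ) (Q z M w W : ℕ) (hM : ∀ n ∈ S, v n ≤ M)
    (hMw : M < (w + 1) * (Q + 1)) (hWz : W ≤ z) :
    (S.filter (fun n => v n ≠ 0 ∧ Q < roughPart z (v n))).card ≤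
      (S.filter (fun n => ∀ p ∈ PI w W, ¬ p ∣ v n)).card := by
  apply card_le_card
  intro n hn
  rw [mem_filter] at hn ⊢
  refine ⟨hn.1, fun p hp hd => ?_⟩
  rw [mem_PI] at hp
  have h1 := part_mul z (v n) hn.2.1
  have h2 : p ∣ smoothPart z (v n) := by
    have h3 : p ∣ roughPart z (v n) * smoothPart z (v n) := by rw [h1]; exact hd
    rcases (Nat.Prime.dvd_mul hp.1.1).1 h3 with h4 | h4
    · exact absurd h4 (rough_rough z (v n) p hp.1.1 (by omega))
    · exact h4
  have h3 : smoothPart z (v n) ≠ 0 := by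
    intro h
    rw [h, mul_zero] at h1
    exact hn.2.1 h1.symm
  have h4 := Nat.le_of_dvd (Nat.pos_of_ne_zero h3) h2
  have h5 : (w + 1) * (Q + 1) ≤ roughPart z (v n) * smoothPart z (v n) := by
    rw [mul_comm]
    exact Nat.mul_le_mul (by omega) (by omega)
  rw [h1] at h5
  have := hM n hn.1
  omega

/-- the harmonic sum -/
theorem harm (Q : ℕ) : ∑ q ∈ Icc 1 Q, (1 : ℝ) / q ≤ 1 + Real.log Q := by
  have h := harmonic_le_one_add_log Q
  rw [harmonic_eq_sum_Icc] at h
  push_cast at h
  simpa [one_div] using h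

theorem harm_dvd (Q r : ℕ) (hr : 1 ≤ r) :
    ∑ q ∈ (Icc 1 Q).filter (fun q => r ∣ q), (1 : ℝ) / q ≤ 1 / r * (1 + Real.log Q) := by
  have hr0 : (r : ℝ) ≠ 0 := by
    have : r ≠ 0 := by omega
    exact_mod_cast this
  have e1 : ∀ q ∈ (Icc 1 Q).filter (fun q => r ∣ q), (1 : ℝ) / q = 1 / (r : ℝ) * (1 / ((q / r : ℕ) : ℝ)) := by
    intro q hq
    rw [mem_filter, mem_Icc] at hq
    rw [Nat.cast_div hq.2 hr0, div_mul_div_comm, mul_one, mul_div_cancel₀ _ hr0]
  have e2 : Set.InjOn (fun q => q / r) ↑((Icc 1 Q).filter (fun q => r ∣ q)) := by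
    intro a ha b hb h
    rw [mem_coe, mem_filter] at ha hb
    simp only at h
    rw [← Nat.div_mul_cancel ha.2, ← Nat.div_mul_cancel hb.2, h]
  rw [sum_congr rfl e1, ← sum_image (f := fun m : ℕ => 1 / (r : ℝ) * (1 / (m : ℝ)))
    (fun a ha b hb h => e2 ha hb h)]
  refine le_trans (b := ∑ q ∈ Icc 1 Q, 1 / (r : ℝ) * (1 / (q : ℝ))) ?_ ?_
  · apply sum_le_sum_of_subset_of_nonneg
    · intro m hm
      rw [mem_image] at hm
      obtain ⟨q, hq, rfl⟩ := hm
      rw [mem_filter, mem_Icc] at hq
      rw [mem_Icc]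
      exact ⟨Nat.div_pos (Nat.le_of_dvd (by omega) hq.2) hr, (Nat.div_le_self _ _).trans hq.1.2⟩
    · intro _ _ _
      positivity
  · rw [← mul_sum]
    exact mul_le_mul_of_nonneg_left (harm Q) (by positivity)

/-- the totient of an integer without small prime factors -/
theorem tot_rough (z q K : ℕ) (hq : 1 ≤ q) (hr : Rough z q) (hqz : q < z ^ K) (hz : 1 ≤ z) (hK : 2 * K ≤ z) :
    |1 / (q.totient : ℝ) - 1 / q| ≤ 2 * K / z * (1 / q) := by
  have hz0 : (0 : ℝ) < z := by exact_mod_cast (by omega : 0 < z)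
  have hq0 : (0 : ℝ) < q := by exact_mod_cast (by omega : 0 < q)
  have hf : (0 : ℝ) < q.totient := by exact_mod_cast Nat.totient_pos.2 (by omega)
  have hle : (q.totient : ℝ) ≤ q := by exact_mod_cast Nat.totient_le q
  have h1 : (q : ℝ) * (1 - K / z) ≤ q.totient := by
    have h2 : (q.totient : ℝ) = q * ∏ p ∈ q.primeFactors, (1 - (p : ℝ)⁻¹) := by
      have := Nat.totient_eq_mul_prod_factors q
      have h3 : ((q.totient : ℚ) : ℝ) = ((q * ∏ p ∈ q.primeFactors, (1 - (p : ℚ)⁻¹) : ℚ) : ℝ) := by rw [this]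
      push_cast at h3
      exact h3
    rw [h2]
    apply mul_le_mul_of_nonneg_left _ hq0.le
    have h3 : (1 - 1 / (z : ℝ)) ^ q.primeFactors.card ≤ ∏ p ∈ q.primeFactors, (1 - (p : ℝ)⁻¹) := by
      rw [← prod_const]
      apply Finset.prod_le_prod
      · intro _ _
        rw [sub_nonneg, div_le_one hz0]
        exact_mod_cast hz
      · intro p hp
        have h4 : z < p := by
          by_contra hcon
          exact hr p (Nat.prime_of_mem_primeFactors hp) (by omega) (Nat.dvd_of_mem_primeFactors hp)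
        rw [← one_div]
        have : 1 / (p : ℝ) ≤ 1 / z := one_div_le_one_div_of_le hz0 (by exact_mod_cast h4.le)
        linarith
    have h4 := one_add_mul_le_pow (show (-2 : ℝ) ≤ -(1 / (z : ℝ)) by
      have : 1 / (z : ℝ) ≤ 1 := by
        rw [div_le_one hz0]
        exact_mod_cast hz
      linarith) q.primeFactors.card
    have e : 1 + -(1 / (z : ℝ)) = 1 - 1 / z := by ring
    rw [e] at h4
    have h5 : (q.primeFactors.card : ℝ) ≤ K := by
      exact_mod_cast Pool.Agent.Q148.BA.card_rough z q q K hz hq le_rfl hr hqz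
    have h6 : (q.primeFactors.card : ℝ) * (1 / z) ≤ K / z := by
      rw [mul_one_div]
      exact div_le_div_of_nonneg_right h5 hz0.le
    linarith
  have h2 : (K : ℝ) / z ≤ 1 / 2 := by
    rw [div_le_div_iff₀ hz0 (by norm_num)]
    have : ((2 * K : ℕ) : ℝ) ≤ z := by exact_mod_cast hK
    push_cast at this
    linarith
  rw [abs_of_nonneg (by
    rw [sub_nonneg]
    exact one_div_le_one_div_of_le hf hle)]
  rw [sub_le_iff_le_add, div_le_iff₀ hf]
  have hk0 : (0 : ℝ) ≤ K / z := by positivity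
  obtain ⟨k, hk⟩ : ∃ k : ℝ, k = K / z := ⟨_, rfl⟩
  have e : 2 * (K : ℝ) / z = 2 * k := by rw [hk]; ring
  rw [e]
  rw [← hk] at h1 h2 hk0
  have h3 : 1 ≤ (2 * k * (1 / q) + 1 / q) * ((q : ℝ) * (1 - k)) := by
    have : (2 * k * (1 / q) + 1 / q) * ((q : ℝ) * (1 - k)) = (2 * k + 1) * (1 - k) := by
      field_simp
    rw [this]
    nlinarith
  exact h3.trans (mul_le_mul_of_nonneg_left h1 (by positivity))

open Classical in
/-- the comparison of the densities -/
theorem dens_cmp (z Q K h : ℕ) (hz : 1 ≤ z) (hK : 2 * K ≤ z) (hQz : Q < z ^ K) (hh : 1 ≤ h) (hhz : h < z ^ K)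
    (G : ℕ → ℝ) (hG : ∀ m, |G m| ≤ 1) :
    |∑ q ∈ (Icc 1 Q).filter (Rough z), gG G q * gh h q - ∑ q ∈ (Icc 1 Q).filter (Rough z), gG G q * (1 / (q : ℝ))| ≤
      2 ^ K * (3 * K / z * (1 + Real.log Q)) := by
  have hz0 : (0 : ℝ) < z := by exact_mod_cast (by omega : 0 < z)
  rw [← sum_sub_distrib]
  refine (abs_sum_le_sum_abs _ _).trans ?_
  have h1 : ∀ q ∈ (Icc 1 Q).filter (Rough z), |gG G q * gh h q - gG G q * (1 / (q : ℝ))| ≤
      2 ^ K * (2 * K / z * (1 / q) + ∑ r ∈ h.primeFactors.filter (fun p => z < p), if r ∣ q then 1 / (q : ℝ) else 0) := by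
    intro q hq
    rw [mem_filter, mem_Icc] at hq
    rw [← mul_sub, abs_mul]
    have hT : |gG G q| ≤ 2 ^ K := by
      refine (gG_le G hG q).trans ?_
      exact_mod_cast card_div_rough z q q K hz hq.1.1 le_rfl hq.2 (by omega)
    apply mul_le_mul hT _ (abs_nonneg _) (by positivity)
    have h0 : 0 ≤ ∑ r ∈ h.primeFactors.filter (fun p => z < p), if r ∣ q then 1 / (q : ℝ) else 0 := by
      apply sum_nonneg
      intro r _
      split_ifs <;> positivity
    unfold gh
    split_ifs with hc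
    · have := tot_rough z q K hq.1.1 hq.2 (by omega) hz hK
      linarith
    · obtain ⟨r, hr, hrq, hrh⟩ := Nat.Prime.not_coprime_iff_dvd.1 hc
      have hrz : z < r := by
        by_contra hcon
        exact hq.2 r hr (by omega) hrq
      have h2 : (1 : ℝ) / q ≤ ∑ r ∈ h.primeFactors.filter (fun p => z < p), if r ∣ q then 1 / (q : ℝ) else 0 := by
        have h3 := single_le_sum (s := h.primeFactors.filter (fun p => z < p))
          (f := fun r => if r ∣ q then 1 / (q : ℝ) else 0) (by
            intro r _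
            split_ifs <;> positivity) (a := r) (by
            rw [mem_filter, Nat.mem_primeFactors]
            exact ⟨⟨hr, hrh, by omega⟩, hrz⟩)
        simp only [if_pos hrq] at h3
        exact h3
      have h3 : 0 ≤ 2 * (K : ℝ) / z * (1 / q) := by positivity
      rw [zero_sub, abs_neg, abs_of_nonneg (by positivity)]
      linarith
  refine (sum_le_sum h1).trans ?_
  rw [← mul_sum]
  apply mul_le_mul_of_nonneg_left _ (by positivity)
  refine le_trans (b := ∑ q ∈ Icc 1 Q, (2 * (K : ℝ) / z * (1 / q) +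
    ∑ r ∈ h.primeFactors.filter (fun p => z < p), if r ∣ q then 1 / (q : ℝ) else 0)) ?_ ?_
  · apply sum_le_sum_of_subset_of_nonneg (filter_subset _ _)
    intro q _ _
    apply add_nonneg (by positivity)
    apply sum_nonneg
    intro r _
    split_ifs <;> positivity
  · rw [sum_add_distrib, ← mul_sum, sum_comm]
    have h2 := harm Q
    have h3 : ∑ r ∈ h.primeFactors.filter (fun p => z < p), ∑ q ∈ Icc 1 Q, (if r ∣ q then 1 / (q : ℝ) else 0) ≤
        ∑ r ∈ h.primeFactors.filter (fun p => z < p), 1 / (z : ℝ) * (1 + Real.log Q) := by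
      apply sum_le_sum
      intro r hr
      rw [mem_filter] at hr
      rw [← sum_filter]
      refine (harm_dvd Q r (by omega)).trans ?_
      apply mul_le_mul_of_nonneg_right
      · exact one_div_le_one_div_of_le hz0 (by exact_mod_cast hr.2.le)
      · have := Real.log_natCast_nonneg Q
        linarith
    rw [sum_const, nsmul_eq_mul] at h3
    have h4 : ((h.primeFactors.filter (fun p => z < p)).card : ℝ) ≤ K := by
      exact_mod_cast card_big h z K hh hhz hz
    have h5 : 0 ≤ 1 + Real.log Q := by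
      have := Real.log_natCast_nonneg Q
      linarith
    have h6 : ((h.primeFactors.filter (fun p => z < p)).card : ℝ) * (1 / z * (1 + Real.log Q)) ≤
        K * (1 / z * (1 + Real.log Q)) := mul_le_mul_of_nonneg_right h4 (by positivity)
    have h7 : 2 * (K : ℝ) / z * ∑ q ∈ Icc 1 Q, 1 / (q : ℝ) ≤ 2 * K / z * (1 + Real.log Q) :=
      mul_le_mul_of_nonneg_left h2 (by positivity)
    have h8 : 3 * (K : ℝ) / z * (1 + Real.log Q) = 2 * K / z * (1 + Real.log Q) + K * (1 / z * (1 + Real.log Q)) := by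
      ring
    rw [h8]
    linarith

end Pool.Agent.Q148.AN
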