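import Pool.Agent.Q148.AN.An
import Pool.Agent.Q148.BA.Seqs

/-! The linear forms. -/

set_option autoImplicit false

namespace Pool.Agent.Q148.AN

open Finset Filter
open Pool.Agent.Q148.BA (Rough PP mem_PP A gh Seq seq_add seq_dif dif exists_inv)
open Pool.Agent.Y882.EHF (S few_affine)

/-- few exceptional members of a family -/
theorem exc (U : ℕ) (κ : ℝ) (hκ : 0 < κ) (hκ8 : κ ≤ 1 / 8) : ∃ N0 : ℕ, ∀ N : ℕ, N0 ≤ N → ∀ u : ℕ → ℕ,
    (∀ q, 1 ≤ q → (u q).Coprime q) → ∀ I : Finset ℕ, (∀ b ∈ I, (b : ℝ) ≤ (N : ℝ) ^ (2 : ℝ)) →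
    ∃ Ex : Finset ℕ, (Ex.card : ℝ) ≤ (N : ℝ) ^ (1 - 3 / 2 * κ) ∧
    ∀ b ∈ I, b ∉ Ex → S N ⌊(N : ℝ) ^ (1 - κ)⌋₊ (fun q => b * u q) ≤ N / Real.log N ^ U := by
  classical
  obtain ⟨B, N1, HF⟩ := few_affine U κ 2 hκ (by norm_num)
  have e2 := Pool.Agent.H398R2.BV.ev_log 1 B (κ / 2) (by positivity)
  obtain ⟨N2, HN2⟩ := eventually_atTop.1 ((tendsto_natCast_atTop_atTop (R := ℝ)).eventually
    (e2.and (eventually_ge_atTop 1)))
  refine ⟨max N1 N2, fun N hN u hu I hI => ?_⟩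
  obtain ⟨f1, f2⟩ := HN2 N ((le_max_right _ _).trans hN)
  have hN0 : (0 : ℝ) < N := by linarith
  obtain ⟨Q, hQ⟩ : ∃ Q : ℕ, Q = ⌊(N : ℝ) ^ (1 - κ)⌋₊ := ⟨_, rfl⟩
  have hQle : (Q : ℝ) ≤ (N : ℝ) ^ (1 - κ) := by rw [hQ]; exact Nat.floor_le (by positivity)
  rw [← hQ]
  refine ⟨I.filter (fun b => (N : ℝ) / Real.log N ^ U < S N Q (fun q => b * u q)), ?_, ?_⟩
  · have h1 := HF N ((le_max_left _ _).trans hN) Q hQle u (fun _ => 0) hu
      (I.filter (fun b => (N : ℝ) / Real.log N ^ U < S N Q (fun q => b * u q))) (by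
      intro b hb
      rw [mem_filter] at hb
      exact ⟨hI b hb.1, by simpa using hb.2⟩)
    refine h1.trans ?_
    have h2 : (Q : ℝ) ^ 2 / N ≤ (N : ℝ) ^ (1 - 2 * κ) := by
      rw [div_le_iff₀ hN0]
      calc (Q : ℝ) ^ 2 ≤ ((N : ℝ) ^ (1 - κ)) ^ 2 := pow_le_pow_left₀ (Nat.cast_nonneg _) hQle 2
        _ = (N : ℝ) ^ (2 - 2 * κ) := by
          rw [← Real.rpow_natCast, ← Real.rpow_mul hN0.le]
          congr 1
          push_cast
          ring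
        _ = (N : ℝ) ^ (1 - 2 * κ) * N := by
          conv_rhs => rw [← Real.rpow_one (N : ℝ), ← Real.rpow_mul hN0.le, one_mul]
          rw [← Real.rpow_add hN0]
          congr 1
          ring
    have h3 : (N : ℝ) ^ (1 - 3 / 2 * κ) = (N : ℝ) ^ (1 - 2 * κ) * (N : ℝ) ^ (κ / 2) := by
      rw [← Real.rpow_add hN0]
      congr 1
      ring
    rw [h3]
    rw [one_mul] at f1
    exact mul_le_mul h2 f1 (by apply pow_nonneg; exact Real.log_nonneg f2) (by positivity)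
  · intro b hb hbE
    by_contra hcon
    exact hbE (mem_filter.2 ⟨hb, not_le.1 hcon⟩)

theorem anat_forms (δ : ℝ) (hδ : 0 < δ) (hδ1 : δ ≤ 1) : ∃ C : ℝ, 0 < C ∧ ∀ κ : ℝ, 0 < κ → κ ≤ 1 / 8 → ∀ A₀ : ℕ,
    ∃ N0 : ℕ, ∀ N : ℕ, N0 ≤ N → ∃ Ex : Finset ℕ, (Ex.card : ℝ) ≤ (N : ℝ) ^ (1 - κ) ∧
    ∀ b : ℕ, 1 ≤ b → (b : ℝ) ≤ N * Real.log N ^ A₀ → b ∉ Ex → ∀ a : ℕ, 1 ≤ a → (a : ℝ) ≤ Real.log N ^ A₀ →
      a.Coprime b → ∀ G : ℕ → ℝ, (∀ m, |G m| ≤ 1) →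
      |∑ p ∈ PP N, G (roughPart ⌊(N : ℝ) ^ δ⌋₊ (a * p + b)) -
        ((PP N).card : ℝ) / N * ∑ n ∈ Icc 1 N, G (roughPart ⌊(N : ℝ) ^ δ⌋₊ n)| ≤ C * κ * (PP N).card ∧
      |∑ p ∈ PP N, G (roughPart ⌊(N : ℝ) ^ δ⌋₊ (dif a b p)) -
        ((PP N).card : ℝ) / N * ∑ n ∈ Icc 1 N, G (roughPart ⌊(N : ℝ) ^ δ⌋₊ n)| ≤ C * κ * (PP N).card := by
  classical
  obtain ⟨C, hC, H⟩ := anat δ hδ hδ1
  refine ⟨C, hC, ?_⟩
  intro κ hκ hκ8 A₀
  obtain ⟨N0, HN⟩ := H κ hκ hκ8 (A₀ + 1)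
  obtain ⟨N1, HE⟩ := exc 12 κ hκ hκ8
  have e1 := Pool.Agent.H398R2.BV.ev_log 2 A₀ (κ / 2) (by positivity)
  have e2 := Real.tendsto_log_atTop.eventually_ge_atTop 2
  have e3 := Pool.Agent.H398R2.BV.ev_log 1 (A₀ + A₀) 1 (by norm_num)
  have e4 := Pool.Agent.H398R2.BV.ev_log 2 10 κ hκ
  obtain ⟨N2, HN2⟩ := eventually_atTop.1 ((tendsto_natCast_atTop_atTop (R := ℝ)).eventually
    (e1.and (e2.and (e3.and (e4.and (eventually_ge_atTop 1))))))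
  refine ⟨max N0 (max N1 N2), fun N hN => ?_⟩
  have hN0' : N0 ≤ N := (le_max_left _ _).trans hN
  have hN1' : N1 ≤ N := (le_max_left _ _).trans ((le_max_right _ _).trans hN)
  obtain ⟨f1, f2, f3, f5, f4⟩ := HN2 N ((le_max_right _ _).trans ((le_max_right _ _).trans hN))
  have hN0 : (0 : ℝ) < N := by linarith
  rw [Real.rpow_one, one_mul] at f3
  have hLA : 1 ≤ Real.log N ^ A₀ := one_le_pow₀ (by linarith)
  obtain ⟨M, hM⟩ : ∃ M : ℕ, M = ⌊Real.log N ^ A₀⌋₊ := ⟨_, rfl⟩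
  obtain ⟨I, hI⟩ : ∃ I : Finset ℕ, I = Icc 1 ⌊(N : ℝ) * Real.log N ^ A₀⌋₊ := ⟨_, rfl⟩
  have hN2 : (N : ℝ) * Real.log N ^ A₀ ≤ (N : ℝ) ^ (2 : ℝ) := by
    rw [Real.rpow_two, pow_two]
    apply mul_le_mul_of_nonneg_left _ hN0.le
    refine le_trans ?_ f3
    rw [pow_add]
    exact le_mul_of_one_le_right (by linarith) hLA
  have hIb : ∀ b ∈ I, (b : ℝ) ≤ (N : ℝ) ^ (2 : ℝ) := by
    intro b hb
    rw [hI, mem_Icc] at hb
    exact (Nat.le_floor_iff (by positivity)).1 hb.2 |>.trans hN2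
  have hinv : ∀ a : ℕ, ∃ u : ℕ → ℕ, (∀ q, 1 ≤ q → (u q).Coprime q) ∧
    ∀ q, 1 ≤ q → a.Coprime q → a * u q ≡ 1 [MOD q] := exists_inv
  choose u hu1 hu2 using hinv
  have hneg : ∀ a q : ℕ, 1 ≤ q → (u a q * (q - 1)).Coprime q := by
    intro a q hq
    refine (hu1 a q hq).mul_left ?_
    have h1 : (q - 1).Coprime (q - 1 + 1) := by simp
    rwa [Nat.sub_add_cancel hq] at h1
  have hex1 := fun a : ℕ => HE N hN1' (u a) (hu1 a) I hIb
  have hex2 := fun a : ℕ => HE N hN1' (fun q => u a q * (q - 1)) (hneg a) I hIb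
  choose E1 hE1 hF1 using hex1
  choose E2 hE2 hF2 using hex2
  -- the sums of the errors
  have hsum : ∀ (h : ℕ) (v c : ℕ → ℕ), Seq N (A₀ + 1) h v c →
      S N ⌊(N : ℝ) ^ (1 - κ)⌋₊ c ≤ N / Real.log N ^ 12 →
      ∑ q ∈ Icc 1 ⌊(N : ℝ) ^ (1 - κ)⌋₊, |A (PP N) v q - ((PP N).card : ℝ) * gh h q| ≤ N / Real.log N ^ 10 := by
    intro h v c hs hS
    refine (hs.sum_le N _ le_rfl).trans ?_
    obtain ⟨L, hL⟩ : ∃ L, L = Real.log N := ⟨_, rfl⟩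
    rw [← hL] at f2 f5 hS ⊢
    have h1 : ((⌊(N : ℝ) ^ (1 - κ)⌋₊ : ℕ) : ℝ) ≤ (N : ℝ) ^ (1 - κ) := Nat.floor_le (by positivity)
    have h2 : (N : ℝ) ^ (1 - κ) ≤ N / (2 * L ^ 10) := by
      rw [le_div_iff₀ (by positivity)]
      calc (N : ℝ) ^ (1 - κ) * (2 * L ^ 10) ≤ (N : ℝ) ^ (1 - κ) * (N : ℝ) ^ κ :=
            mul_le_mul_of_nonneg_left f5 (by positivity)
        _ = N := by
          rw [← Real.rpow_add hN0]
          have : 1 - κ + κ = 1 := by ring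
          rw [this, Real.rpow_one]
    have h3 : (N : ℝ) / L ^ 12 ≤ N / (2 * L ^ 10) := by
      apply div_le_div_of_nonneg_left hN0.le (by positivity)
      have h4 : L ^ 12 = L ^ 10 * L ^ 2 := by ring
      have h5 : 0 < L ^ 10 := by positivity
      rw [h4, mul_comm 2]
      apply mul_le_mul_of_nonneg_left _ h5.le
      nlinarith
    have h4 : (N : ℝ) / L ^ 10 = N / (2 * L ^ 10) + N / (2 * L ^ 10) := by
      field_simp
      ring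
    rw [h4]
    linarith
  refine ⟨(Icc 1 M).biUnion (fun a => E1 a ∪ E2 a), ?_, ?_⟩
  · have h1 : (((Icc 1 M).biUnion (fun a => E1 a ∪ E2 a)).card : ℝ) ≤
        ∑ a ∈ Icc 1 M, (((E1 a ∪ E2 a).card : ℕ) : ℝ) := by
      exact_mod_cast card_biUnion_le
    have h2 : ∀ a ∈ Icc 1 M, (((E1 a ∪ E2 a).card : ℕ) : ℝ) ≤ 2 * (N : ℝ) ^ (1 - 3 / 2 * κ) := by
      intro a _
      have h3 : (((E1 a ∪ E2 a).card : ℕ) : ℝ) ≤ (E1 a).card + (E2 a).card := by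
        exact_mod_cast card_union_le _ _
      linarith [hE1 a, hE2 a]
    have h3 : (M : ℝ) ≤ Real.log N ^ A₀ := by rw [hM]; exact Nat.floor_le (by positivity)
    have h4 : (N : ℝ) ^ (1 - κ) = (N : ℝ) ^ (1 - 3 / 2 * κ) * (N : ℝ) ^ (κ / 2) := by
      rw [← Real.rpow_add hN0]
      congr 1
      ring
    rw [h4]
    calc (((Icc 1 M).biUnion (fun a => E1 a ∪ E2 a)).card : ℝ) ≤ ∑ a ∈ Icc 1 M, 2 * (N : ℝ) ^ (1 - 3 / 2 * κ) :=
          h1.trans (sum_le_sum h2)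
      _ = M * (2 * (N : ℝ) ^ (1 - 3 / 2 * κ)) := by
          rw [sum_const, Nat.card_Icc, nsmul_eq_mul, Nat.add_sub_cancel]
      _ ≤ Real.log N ^ A₀ * (2 * (N : ℝ) ^ (1 - 3 / 2 * κ)) := mul_le_mul_of_nonneg_right h3 (by positivity)
      _ = (N : ℝ) ^ (1 - 3 / 2 * κ) * (2 * Real.log N ^ A₀) := by ring
      _ ≤ _ := mul_le_mul_of_nonneg_left f1 (by positivity)
  · intro b hb1 hb2 hbE a ha1 ha2 hab G hG
    have haM : a ∈ Icc 1 M := by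
      rw [mem_Icc, hM]
      exact ⟨ha1, Nat.le_floor ha2⟩
    have hbI : b ∈ I := by
      rw [hI, mem_Icc]
      exact ⟨hb1, Nat.le_floor hb2⟩
    have hbE1 : b ∉ E1 a := fun h => hbE (mem_biUnion.2 ⟨a, haM, mem_union_left _ h⟩)
    have hbE2 : b ∉ E2 a := fun h => hbE (mem_biUnion.2 ⟨a, haM, mem_union_right _ h⟩)
    have hh1 : 1 ≤ a * b := Nat.mul_pos ha1 hb1
    have hh2 : ((a * b : ℕ) : ℝ) ≤ (N : ℝ) ^ (2 : ℝ) := by
      push_cast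
      calc (a : ℝ) * b ≤ Real.log N ^ A₀ * (N * Real.log N ^ A₀) := mul_le_mul ha2 hb2 (Nat.cast_nonneg b) (by positivity)
        _ = N * Real.log N ^ (A₀ + A₀) := by rw [pow_add]; ring
        _ ≤ N * N := mul_le_mul_of_nonneg_left f3 hN0.le
        _ = _ := by rw [Real.rpow_two, pow_two]
    have hL2 : 2 * (N * Real.log N ^ A₀) ≤ N * Real.log N ^ (A₀ + 1) := by
      rw [pow_succ]
      have : 0 ≤ (N : ℝ) * Real.log N ^ A₀ := by positivity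
      nlinarith
    have haN : (a : ℝ) * N ≤ N * Real.log N ^ A₀ := by
      rw [mul_comm]
      exact mul_le_mul_of_nonneg_left ha2 hN0.le
    have hp0 : 0 ≤ (N : ℝ) * Real.log N ^ A₀ := by positivity
    constructor
    · have hs := seq_add N (A₀ + 1) a b ha1 hab (by linarith) (u a) (hu1 a) (hu2 a)
      refine HN N hN0' (a * b) hh1 hh2 (fun p => a * p + b) ?_ ?_ (hsum _ _ _ hs (hF2 a b hbI hbE2)) G hG
      · intro p hp
        exact hs.le p (mem_PP.1 hp).1 (mem_PP.1 hp).2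
      · have : (PP N).filter (fun p => a * p + b = 0) = ∅ := by
          rw [filter_eq_empty_iff]
          intro p _
          omega
        rw [this, card_empty]
        exact zero_le_one
    · have hs := seq_dif N (A₀ + 1) a b ha1 hab (by linarith) (by linarith) (u a) (hu1 a) (hu2 a)
      refine HN N hN0' (a * b) hh1 hh2 (dif a b) ?_ ?_ (hsum _ _ _ hs (hF1 a b hbI hbE1)) G hG
      · intro p hp
        exact hs.le p (mem_PP.1 hp).1 (mem_PP.1 hp).2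
      · refine (card_le_card (t := {b / a}) ?_).trans (by simp)
        intro p hp
        rw [mem_filter] at hp
        rw [mem_singleton]
        have h1 := hp.2
        unfold dif at h1
        have h2 : a * p = b := by omega
        rw [← h2, Nat.mul_div_cancel_left p ha1]

end Pool.Agent.Q148.AN
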