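import Pool.Agent.Q148.BA.Fam

/-! The part of an integer composed of large primes. -/

set_option autoImplicit false

namespace Pool.Agent.Q148.AN

open Finset
open Pool.Agent.Q148.BA (Rough)

/-- the product of the prime powers `p ^ v_p(n)` over the primes `p > z` dividing `n` -/
def roughPart (z n : ℕ) : ℕ := ∏ p ∈ n.primeFactors.filter (fun p => z < p), p ^ n.factorization p

/-- the complementary part -/
def smoothPart (z n : ℕ) : ℕ := ∏ p ∈ n.primeFactors.filter (fun p => ¬ z < p), p ^ n.factorization p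

theorem part_mul (z n : ℕ) (hn : n ≠ 0) : roughPart z n * smoothPart z n = n := by
  unfold roughPart smoothPart
  rw [prod_filter_mul_prod_filter_not]
  exact Nat.prod_factorization_pow_eq_self hn

theorem prime_dvd_rough {z n p : ℕ} (hp : p.Prime) (h : p ∣ roughPart z n) : z < p ∧ p ∣ n := by
  unfold roughPart at h
  obtain ⟨r, hr, h1⟩ := (hp.prime.dvd_finsetProd_iff _).1 h
  rw [mem_filter] at hr
  have h2 := (Nat.prime_dvd_prime_iff_eq hp (Nat.prime_of_mem_primeFactors hr.1)).1 (hp.dvd_of_dvd_pow h1)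
  rw [h2]
  exact ⟨hr.2, Nat.dvd_of_mem_primeFactors hr.1⟩

theorem prime_dvd_smooth {z n p : ℕ} (hp : p.Prime) (h : p ∣ smoothPart z n) : p ≤ z ∧ p ∣ n := by
  unfold smoothPart at h
  obtain ⟨r, hr, h1⟩ := (hp.prime.dvd_finsetProd_iff _).1 h
  rw [mem_filter] at hr
  have h2 := (Nat.prime_dvd_prime_iff_eq hp (Nat.prime_of_mem_primeFactors hr.1)).1 (hp.dvd_of_dvd_pow h1)
  rw [h2]
  exact ⟨not_lt.1 hr.2, Nat.dvd_of_mem_primeFactors hr.1⟩

theorem rough_dvd (z n : ℕ) (hn : n ≠ 0) : roughPart z n ∣ n := ⟨_, (part_mul z n hn).symm⟩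

theorem rough_pos (z n : ℕ) (hn : n ≠ 0) : roughPart z n ≠ 0 := by
  intro h
  have := part_mul z n hn
  rw [h, zero_mul] at this
  exact hn this.symm

theorem rough_rough (z n : ℕ) : Rough z (roughPart z n) := by
  intro p hp hpz hd
  have := (prime_dvd_rough hp hd).1
  omega

theorem dvd_rough (z n q : ℕ) (hn : n ≠ 0) : q ∣ roughPart z n ↔ q ∣ n ∧ Rough z q := by
  constructor
  · intro h
    exact ⟨h.trans (rough_dvd z n hn), fun p hp hpz hd => rough_rough z n p hp hpz (hd.trans h)⟩
  · rintro ⟨h1, h2⟩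
    have hc : q.Coprime (smoothPart z n) := by
      apply Nat.Coprime.symm
      apply Nat.coprime_of_dvd
      intro p hp h3 h4
      exact h2 p hp (prime_dvd_smooth hp h3).1 h4
    apply hc.dvd_of_dvd_mul_right
    rw [part_mul z n hn]
    exact h1

/-- the number of the divisors of an integer without small prime factors -/
theorem card_div_rough (z m M K : ℕ) (hz : 1 ≤ z) (hm : 1 ≤ m) (h : m ≤ M) (hr : Rough z m) (hK : M < z ^ K) :
    m.divisors.card ≤ 2 ^ K := by
  have hm0 : m ≠ 0 := by omega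
  have h1 : z ^ (∑ p ∈ m.primeFactors, m.factorization p) ≤ m := by
    calc z ^ (∑ p ∈ m.primeFactors, m.factorization p) = ∏ p ∈ m.primeFactors, z ^ m.factorization p := by
          rw [prod_pow_eq_pow_sum]
      _ ≤ ∏ p ∈ m.primeFactors, p ^ m.factorization p := by
          apply prod_le_prod'
          intro p hp
          apply Nat.pow_le_pow_left
          have := hr p (Nat.prime_of_mem_primeFactors hp)
          by_contra hcon
          exact this (by omega) (Nat.dvd_of_mem_primeFactors hp)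
      _ = m := Nat.prod_factorization_pow_eq_self hm0
  have h2 : ∑ p ∈ m.primeFactors, m.factorization p ≤ K := by
    by_contra hcon
    have h2 : z ^ K ≤ z ^ (∑ p ∈ m.primeFactors, m.factorization p) := Nat.pow_le_pow_right hz (by omega)
    omega
  calc m.divisors.card = ∏ x ∈ m.primeFactors, (m.factorization x + 1) := Nat.card_divisors hm0
    _ ≤ ∏ x ∈ m.primeFactors, 2 ^ m.factorization x := by
        apply prod_le_prod'
        intro x _
        exact Nat.lt_two_pow_self
    _ = 2 ^ (∑ p ∈ m.primeFactors, m.factorization p) := by rw [prod_pow_eq_pow_sum]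
    _ ≤ 2 ^ K := Nat.pow_le_pow_right (by norm_num) h2

/-- the Möbius inversion of `G` -/
noncomputable def gG (G : ℕ → ℝ) (q : ℕ) : ℝ :=
  ∑ x ∈ q.divisorsAntidiagonal, ((ArithmeticFunction.moebius x.1 : ℤ) : ℝ) * G x.2

theorem gG_sum (G : ℕ → ℝ) (n : ℕ) (hn : 0 < n) : ∑ q ∈ n.divisors, gG G q = G n :=
  (ArithmeticFunction.sum_eq_iff_sum_mul_moebius_eq (f := gG G) (g := G)).2 (fun _ _ => rfl) n hn

theorem gG_le (G : ℕ → ℝ) (hG : ∀ m, |G m| ≤ 1) (q : ℕ) : |gG G q| ≤ q.divisors.card := by
  unfold gG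
  refine (abs_sum_le_sum_abs _ _).trans ?_
  have h1 : ∀ x ∈ q.divisorsAntidiagonal, |((ArithmeticFunction.moebius x.1 : ℤ) : ℝ) * G x.2| ≤ 1 := by
    intro x _
    rw [abs_mul]
    have h2 : |((ArithmeticFunction.moebius x.1 : ℤ) : ℝ)| ≤ 1 := by
      have := ArithmeticFunction.abs_moebius_le_one (n := x.1)
      exact_mod_cast this
    exact mul_le_one₀ h2 (abs_nonneg _) (hG _)
  refine (sum_le_sum h1).trans ?_
  rw [sum_const, nsmul_eq_mul, mul_one]
  have h3 : q.divisorsAntidiagonal.card = q.divisors.card := by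
    rw [← Nat.map_div_right_divisors, card_map]
  rw [h3]

end Pool.Agent.Q148.AN
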