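import Pool.Agent.Q148.AN.Rp

/-! An upper bound sieve for primes from an interval. -/

set_option autoImplicit false

namespace Pool.Agent.Q148.AN

open Finset
open Pool.Agent.Q148.BA (Rough PP mem_PP A V1 V1_pos mertens flf prodT_dvd card_big)
open Pool.Agent.Y882

open Classical in
theorem up : ∃ C : ℕ, 1 ≤ C ∧ ∀ (J : ℕ) (P : Finset ℕ), (∀ p ∈ P, p.Prime ∧ p ≤ 2 ^ 2 ^ J) →
    ∀ (S : Finset ℕ) (v : ℕ → ℕ) (X : ℝ) (g : ℕ → ℝ) (Q : ℕ) (E : ℝ), 0 ≤ X →
    (∀ T ⊆ P, g (∏ p ∈ T, p) = ∏ p ∈ T, g p) → (∀ p ∈ P, 0 ≤ g p ∧ g p ≤ 1 / ((p : ℝ) - 1)) →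
    C * (2 ^ 2 ^ J) ^ C ≤ Q → ∑ q ∈ Icc 1 Q, |A S v q - X * g q| ≤ E →
    ((S.filter (fun n => ∀ p ∈ P, ¬ p ∣ v n)).card : ℝ) ≤ 2 * X * ∏ p ∈ P, (1 - g p) + (J + 1) * E := by
  obtain ⟨C, hC, HF⟩ := flf
  refine ⟨C * C, Nat.mul_pos hC hC, fun J P hP S v X g Q E hX hmul hg hQ hE => ?_⟩
  obtain ⟨wU, wL, w1, w2, w3, w4⟩ := HF C J P le_rfl hP
  obtain ⟨m1, m2⟩ := w4 g hg
  set V := ∏ p ∈ P, (1 - g p) with hV
  have hJ0 : (0 : ℝ) ≤ J + 1 := by positivity
  -- the bound by the weights
  have e0 : ((S.filter (fun n => ∀ p ∈ P, ¬ p ∣ v n)).card : ℝ) ≤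
      ∑ n ∈ S, VV P wU (fun p => if p ∣ v n then 1 else 0) := by
    rw [card_filter, Nat.cast_sum]
    apply sum_le_sum
    intro n _
    have := (w3 (v n)).2
    push_cast
    exact this
  have e1 : ∑ n ∈ S, VV P wU (fun p => if p ∣ v n then 1 else 0) =
      ∑ T ∈ P.powerset, wU T * A S v (∏ p ∈ T, p) := by
    unfold VV
    rw [sum_comm]
    apply sum_congr rfl
    intro T hT
    rw [mem_powerset] at hT
    rw [← mul_sum]
    congr 1
    unfold A
    rw [card_filter, Nat.cast_sum]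
    apply sum_congr rfl
    intro n _
    rw [prod_ind]
    have h2 := prodT_dvd T (fun p hp => (hP p (hT hp)).1) (v n)
    by_cases h3 : ∀ p ∈ T, p ∣ v n
    · rw [if_pos h3, if_pos (h2.2 h3)]
      norm_num
    · rw [if_neg h3, if_neg (fun h => h3 (h2.1 h))]
      norm_num
  have e2 : X * VV P wU g = ∑ T ∈ P.powerset, wU T * (X * g (∏ p ∈ T, p)) := by
    unfold VV
    rw [mul_sum]
    apply sum_congr rfl
    intro T hT
    rw [mem_powerset] at hT
    rw [hmul T hT]
    ring
  have e3 : ∑ T ∈ P.powerset, wU T * A S v (∏ p ∈ T, p) - X * VV P wU g ≤ (J + 1) * E := by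
    rw [e2, ← sum_sub_distrib]
    have h1 : ∀ T ∈ P.powerset, wU T * A S v (∏ p ∈ T, p) - wU T * (X * g (∏ p ∈ T, p)) ≤
        if ∏ p ∈ T, p ≤ Q then (J + 1) * |A S v (∏ p ∈ T, p) - X * g (∏ p ∈ T, p)| else 0 := by
      intro T hT
      rw [mem_powerset] at hT
      split_ifs with h2
      · rw [← mul_sub]
        calc wU T * (A S v (∏ p ∈ T, p) - X * g (∏ p ∈ T, p)) ≤
            |wU T * (A S v (∏ p ∈ T, p) - X * g (∏ p ∈ T, p))| := le_abs_self _
          _ = |wU T| * |A S v (∏ p ∈ T, p) - X * g (∏ p ∈ T, p)| := abs_mul _ _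
          _ ≤ _ := mul_le_mul_of_nonneg_right (w1 T).1 (abs_nonneg _)
      · have h3 : wU T = 0 := by
          by_contra hcon
          apply h2
          refine (w2 T hT (Or.inl hcon)).trans (le_trans ?_ hQ)
          exact Nat.mul_le_mul_right _ (Nat.le_mul_of_pos_left C hC)
        rw [h3, zero_mul, zero_mul, sub_zero]
    refine (sum_le_sum h1).trans ?_
    rw [← sum_filter, ← mul_sum]
    apply mul_le_mul_of_nonneg_left _ hJ0
    refine le_trans ?_ hE
    have hinj : Set.InjOn (fun T : Finset ℕ => ∏ p ∈ T, p) ↑(P.powerset.filter (fun T => ∏ p ∈ T, p ≤ Q)) := by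
      intro T hT T' hT' h
      simp only [coe_filter, mem_powerset, Set.mem_ofPred_eq] at hT hT'
      simp only at h
      have key : ∀ U U' : Finset ℕ, U ⊆ P → U' ⊆ P → ∏ p ∈ U, p = ∏ p ∈ U', p → U ⊆ U' := by
        intro U U' hU hU' he p hp
        have h3 : p ∣ ∏ p ∈ U', p := by
          rw [← he]
          exact dvd_prod_of_mem _ hp
        obtain ⟨r, hr, h4⟩ := ((hP p (hU hp)).1.prime.dvd_finsetProd_iff _).1 h3
        rwa [(Nat.prime_dvd_prime_iff_eq (hP p (hU hp)).1 (hP r (hU' hr)).1).1 h4]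
      exact Subset.antisymm (key T T' hT.1 hT'.1 h) (key T' T hT'.1 hT.1 h.symm)
    rw [← sum_image (f := fun q => |A S v q - X * g q|) (fun T hT T' hT' h => hinj hT hT' h)]
    apply sum_le_sum_of_subset_of_nonneg
    · intro q hq
      rw [mem_image] at hq
      obtain ⟨T, hT, rfl⟩ := hq
      rw [mem_filter, mem_powerset] at hT
      rw [mem_Icc]
      exact ⟨Nat.one_le_iff_ne_zero.2 (prod_ne_zero_iff.2 fun p hp => (hP p (hT.1 hp)).1.ne_zero), hT.2⟩
    · intro _ _ _
      exact abs_nonneg _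
  have hV0 : 0 ≤ V := by
    apply prod_nonneg
    intro p hp
    have h3 := (hg p hp).2
    have h4 : (2 : ℝ) ≤ p := by exact_mod_cast (hP p hp).1.two_le
    have h5 : 1 / ((p : ℝ) - 1) ≤ 1 := by
      rw [div_le_one (by linarith)]
      linarith
    linarith
  have e4 : X * VV P wU g ≤ 2 * X * V := by
    have h1 : (1 / 2 : ℝ) ^ C ≤ 1 := pow_le_one₀ (by norm_num) (by norm_num)
    calc X * VV P wU g ≤ X * ((1 + (1 / 2 : ℝ) ^ C) * V) := mul_le_mul_of_nonneg_left m2 hX
      _ ≤ X * (2 * V) := mul_le_mul_of_nonneg_left (mul_le_mul_of_nonneg_right (by linarith) hV0) hX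
      _ = _ := by ring
  linarith

/-- the primes of `(w, W]` -/
def PI (w W : ℕ) : Finset ℕ := (PP W).filter (fun p => w < p)

theorem mem_PI {w W p : ℕ} : p ∈ PI w W ↔ (p.Prime ∧ p ≤ W) ∧ w < p := by
  unfold PI
  rw [mem_filter, mem_PP]

theorem V1_div (w W : ℕ) (h : w ≤ W) : V1 w * ∏ p ∈ PI w W, (1 - 1 / (p : ℝ)) = V1 W := by
  unfold V1
  rw [← prod_filter_mul_prod_filter_not (PP W) (fun p => w < p), mul_comm]
  congr 1
  apply prod_congr _ (fun _ _ => rfl)
  ext p
  rw [mem_PP, mem_filter, mem_PP]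
  constructor
  · rintro ⟨h1, h2⟩
    exact ⟨⟨h1, h2.trans h⟩, not_lt.2 h2⟩
  · rintro ⟨⟨h1, _⟩, h2⟩
    exact ⟨h1, not_lt.1 h2⟩

/-- the sifting product: a density which is at least `1/p` outside the prime factors of `h` -/
theorem prod_up : ∃ (C : ℝ) (w1 : ℕ), 0 < C ∧ 2 ≤ w1 ∧ ∀ (w W h K : ℕ) (g : ℕ → ℝ), w1 ≤ w → 2 * K ≤ w →
    1 ≤ h → h < w ^ K →
    (∀ p ∈ PI w W, g p ≤ 1 ∧ (¬ p ∣ h → 1 / (p : ℝ) ≤ g p)) → (∀ p ∈ PI w W, 0 ≤ g p) → 2 ≤ W →
    ∏ p ∈ PI w W, (1 - g p) ≤ C * (Real.log w / Real.log W) := by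
  obtain ⟨c, C, z1, hc, hC, hz1, H⟩ := mertens
  refine ⟨2 * C / c + 1, z1, by positivity, hz1, fun w W h K g hw hK hh hhK hg hg0 hW => ?_⟩
  have hlogw : 0 < Real.log w := Real.log_pos (by exact_mod_cast (by omega : 1 < w))
  have hlogW : 0 < Real.log W := Real.log_pos (by exact_mod_cast (by omega : 1 < W))
  rcases Nat.lt_or_ge W w with hlt | hge
  · have h1 : ∏ p ∈ PI w W, (1 - g p) ≤ 1 := by
      apply prod_le_one
      · intro p hp
        linarith [(hg p hp).1]
      · intro p hp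
        linarith [hg0 p hp]
    have h2 : 1 ≤ Real.log w / Real.log W := by
      rw [le_div_iff₀ hlogW, one_mul]
      exact Real.log_le_log (by exact_mod_cast (by omega : 0 < W)) (by exact_mod_cast hlt.le)
    have h3 : 0 ≤ 2 * C / c := by positivity
    nlinarith
  · -- the comparison with the product of `1 - 1/p`
    have hw0 : (2 : ℝ) ≤ w := by exact_mod_cast (by omega : 2 ≤ w)
    have h1 : (∏ p ∈ PI w W, (1 - g p)) * (1 - 1 / (w : ℝ)) ^ (h.primeFactors.filter (fun p => w < p)).card ≤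
        ∏ p ∈ PI w W, (1 - 1 / (p : ℝ)) := by
      have h2 : ∀ p ∈ PI w W, (1 - g p) * (if p ∣ h then 1 - 1 / (w : ℝ) else 1) ≤ 1 - 1 / (p : ℝ) := by
        intro p hp
        have hp' := mem_PI.1 hp
        have hwp : (w : ℝ) ≤ p := by exact_mod_cast hp'.2.le
        have h3 := hg0 p hp
        have h4 := (hg p hp).1
        split_ifs with hd
        · have h5 : 1 / (p : ℝ) ≤ 1 / w := one_div_le_one_div_of_le (by linarith) hwp
          have h6 : 0 ≤ 1 - 1 / (w : ℝ) := by
            rw [sub_nonneg, div_le_one (by linarith)]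
            linarith
          nlinarith
        · have := (hg p hp).2 hd
          linarith
      have h3 : ∏ p ∈ PI w W, (1 - g p) * (if p ∣ h then 1 - 1 / (w : ℝ) else 1) ≤
          ∏ p ∈ PI w W, (1 - 1 / (p : ℝ)) := by
        apply Finset.prod_le_prod
        · intro p hp
          apply mul_nonneg
          · linarith [(hg p hp).1]
          · split_ifs
            · rw [sub_nonneg, div_le_one (by linarith)]
              linarith
            · norm_num
        · exact h2
      refine le_trans ?_ h3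
      rw [prod_mul_distrib]
      apply mul_le_mul_of_nonneg_left
      · rw [← prod_filter, prod_const]
        apply pow_le_pow_of_le_one
        · rw [sub_nonneg, div_le_one (by linarith)]
          linarith
        · have : 0 ≤ 1 / (w : ℝ) := by positivity
          linarith
        · apply card_le_card
          intro p hp
          rw [mem_filter, mem_PI] at hp
          rw [mem_filter, Nat.mem_primeFactors]
          exact ⟨⟨hp.1.1.1, hp.2, by omega⟩, hp.1.2⟩
      · apply prod_nonneg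
        intro p hp
        linarith [(hg p hp).1]
    have hk := card_big h w K hh hhK (by omega)
    have h4 : (1 / 2 : ℝ) ≤ (1 - 1 / (w : ℝ)) ^ (h.primeFactors.filter (fun p => w < p)).card := by
      have h5 : (1 - 1 / (w : ℝ)) ^ K ≤ (1 - 1 / (w : ℝ)) ^ (h.primeFactors.filter (fun p => w < p)).card := by
        apply pow_le_pow_of_le_one
        · rw [sub_nonneg, div_le_one (by linarith)]
          linarith
        · have : 0 ≤ 1 / (w : ℝ) := by positivity
          linarith
        · exact hk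
      have h6 := one_add_mul_le_pow (show (-2 : ℝ) ≤ -(1 / (w : ℝ)) by
        have : 1 / (w : ℝ) ≤ 1 := by rw [div_le_one (by linarith)]; linarith
        linarith) K
      have h7 : (K : ℝ) * (1 / w) ≤ 1 / 2 := by
        rw [mul_one_div, div_le_div_iff₀ (by linarith) (by norm_num)]
        have : ((2 * K : ℕ) : ℝ) ≤ w := by exact_mod_cast hK
        push_cast at this
        linarith
      have e : 1 + -(1 / (w : ℝ)) = 1 - 1 / w := by ring
      rw [e] at h6
      linarith
    have h5 : ∏ p ∈ PI w W, (1 - 1 / (p : ℝ)) ≤ C / c * (Real.log w / Real.log W) := by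
      have h6 := V1_div w W hge
      have h7 := (H w hw).1
      have h8 := (H W (by omega)).2
      have h9 := V1_pos w
      obtain ⟨x, hx⟩ : ∃ x, x = ∏ p ∈ PI w W, (1 - 1 / (p : ℝ)) := ⟨_, rfl⟩
      rw [← hx] at h6 ⊢
      have hx0 : 0 ≤ x := by
        rw [hx]
        apply prod_nonneg
        intro p hp
        have : (2 : ℝ) ≤ p := by exact_mod_cast (mem_PI.1 hp).1.1.two_le
        rw [sub_nonneg, div_le_one (by linarith)]
        linarith
      rw [← h6] at h8
      have h10 : c / Real.log w * x ≤ C / Real.log W := (mul_le_mul_of_nonneg_right h7 hx0).trans h8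
      rw [div_mul_eq_mul_div, div_le_div_iff₀ hlogw hlogW] at h10
      rw [div_mul_div_comm, le_div_iff₀ (by positivity)]
      linarith
    have h6 : 0 ≤ ∏ p ∈ PI w W, (1 - g p) := by
      apply prod_nonneg
      intro p hp
      linarith [(hg p hp).1]
    have h7 := mul_le_mul_of_nonneg_left h4 h6
    have h8 : 0 ≤ Real.log w / Real.log W := by positivity
    have h9 : (2 * C / c + 1) * (Real.log w / Real.log W) =
      2 * (C / c * (Real.log w / Real.log W)) + Real.log w / Real.log W := by ring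
    rw [h9]
    linarith

end Pool.Agent.Q148.AN
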